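import Mathlib

set_option autoImplicit false

namespace Pool.Agent.Lib.MP_5e2afd_co

/-- The hypercube graph: two 0-1 vectors are adjacent when they differ in exactly one
coordinate. -/
def hypercube (n : ℕ) : SimpleGraph (Fin n → Bool) where
  Adj u v := ∃! i, u i ≠ v i
  symm := ⟨fun u v h => by
    obtain ⟨i, h1, h2⟩ := h
    exact ⟨i, fun h => h1 h.symm, fun j hj => h2 j (fun h => hj h.symm)⟩⟩
  loopless := ⟨fun u h => by
    obtain ⟨i, h1, _⟩ := h
    exact h1 rfl⟩

end Pool.Agent.Lib.MP_5e2afd_co
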