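import Mathlib
import Pool.Agent.Lib.MP_5e2afd_co.Cube

section

set_option autoImplicit false
open Finset

namespace Pool.Agent.Lib.MP_5e2afd_co

/-- The data coming from a 10-cycle between two consecutive levels, in one linear structure. -/
structure Cfg {n : ℕ} {V : Type} [AddCommGroup V] [Module (ZMod 3) V] (v : Fin n → V) (w : V) where
  T : Fin 5 → Finset (Fin n)
  x : Fin 5 → Fin n
  y : Fin 5 → Fin n
  hx : ∀ i, x i ∉ T i
  hy : ∀ i, y i ∉ T (i + 1)
  hS : ∀ i, insert (x i) (T i) = insert (y i) (T (i + 1))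
  hxy : ∀ i, x i ≠ y i
  hyx : ∀ i, y i ≠ x (i + 1)
  g : Fin 5 → V →ₗ[ZMod 3] ZMod 3
  hg : ∀ i, ∀ z ∈ T i, g i (v z) = 0
  hgw : ∀ i, g i w = 1
  hgx : ∀ i, g i (v (x i)) = 1
  hgy : ∀ i, g (i + 1) (v (y i)) = 1
  c : Fin 5 → Fin n → ZMod 3
  hc : ∀ i, w = ∑ z ∈ insert (x i) (T i), c i z • v z

namespace Cfg

variable {n : ℕ} {V : Type} [AddCommGroup V] [Module (ZMod 3) V] {v : Fin n → V} {w : V}

/-- Rotation of the cycle. -/
def shift (C : Cfg v w) (s : Fin 5) : Cfg v w where
  T i := C.T (s + i)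
  x i := C.x (s + i)
  y i := C.y (s + i)
  hx i := C.hx (s + i)
  hy i := by rw [← add_assoc]; exact C.hy (s + i)
  hS i := by rw [← add_assoc]; exact C.hS (s + i)
  hxy i := C.hxy (s + i)
  hyx i := by rw [← add_assoc]; exact C.hyx (s + i)
  g i := C.g (s + i)
  hg i := C.hg (s + i)
  hgw i := C.hgw (s + i)
  hgx i := C.hgx (s + i)
  hgy i := by rw [← add_assoc]; exact C.hgy (s + i)
  c i := C.c (s + i)
  hc i := C.hc (s + i)

lemma mem_succ (C : Cfg v w) (i : Fin 5) (z : Fin n) :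
    z ∈ C.T (i + 1) ↔ (z = C.x i ∨ z ∈ C.T i) ∧ z ≠ C.y i := by
  have h : z ∈ insert (C.x i) (C.T i) ↔ z ∈ insert (C.y i) (C.T (i + 1)) := by rw [C.hS i]
  rw [Finset.mem_insert, Finset.mem_insert] at h
  constructor
  · intro hz
    refine ⟨h.mpr (Or.inr hz), ?_⟩
    rintro rfl
    exact C.hy i hz
  · rintro ⟨h1, h2⟩
    rcases h.mp h1 with h3 | h3
    · exact absurd h3 h2
    · exact h3

lemma y_mem (C : Cfg v w) (i : Fin 5) : C.y i ∈ C.T i := by
  have h : C.y i ∈ insert (C.x i) (C.T i) := by rw [C.hS i]; exact Finset.mem_insert_self _ _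
  rcases Finset.mem_insert.mp h with h1 | h1
  · exact absurd h1.symm (C.hxy i)
  · exact h1

lemma x_mem (C : Cfg v w) (i : Fin 5) : C.x i ∈ C.T (i + 1) :=
  (C.mem_succ i _).mpr ⟨Or.inl rfl, C.hxy i⟩

lemma x_ne1 (C : Cfg v w) (i : Fin 5) : C.x i ≠ C.x (i + 1) := by
  intro h
  have := C.x_mem i
  rw [h] at this
  exact C.hx (i + 1) this

lemma x_ne2 (C : Cfg v w) (i : Fin 5) : C.x i ≠ C.x (i + 1 + 1) := by
  intro h
  have h1 := C.x_mem i
  have h2 := C.hx (i + 1 + 1)
  rw [← h, C.mem_succ] at h2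
  have h3 : C.x i = C.y (i + 1) := by
    by_contra hne
    exact h2 ⟨Or.inr h1, hne⟩
  exact C.hyx (i + 1) (by rw [← h3]; exact h)

lemma x_inj (C : Cfg v w) : Function.Injective C.x := by
  intro i j h
  have key : ∀ i j : Fin 5, i = j ∨ j = i + 1 ∨ i = j + 1 ∨ j = i + 1 + 1 ∨ i = j + 1 + 1 := by
    decide
  rcases key i j with h1 | h1 | h1 | h1 | h1
  · exact h1
  · rw [h1] at h; exact absurd h (C.x_ne1 i)
  · rw [h1] at h; exact absurd h.symm (C.x_ne1 j)
  · rw [h1] at h; exact absurd h (C.x_ne2 i)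
  · rw [h1] at h; exact absurd h.symm (C.x_ne2 j)

/-- If `x j` is removed at a step, it stays away until it is added again. -/
lemma not_mem_succ (C : Cfg v w) {i j : Fin 5} (hij : i ≠ j) (h : C.x j ∉ C.T i) :
    C.x j ∉ C.T (i + 1) := by
  rw [C.mem_succ]
  rintro ⟨h1 | h1, _⟩
  · exact hij (C.x_inj h1).symm
  · exact h h1

lemma tri (C : Cfg v w) (j : Fin 5) :
    (C.y (j + 1) = C.x j ∧ C.x j ∉ C.T (j + 2) ∧ C.x j ∉ C.T (j + 3) ∧ C.x j ∉ C.T (j + 4)) ∨
    (C.y (j + 2) = C.x j ∧ C.x j ∈ C.T (j + 2) ∧ C.x j ∉ C.T (j + 3) ∧ C.x j ∉ C.T (j + 4)) ∨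
    (C.y (j + 3) = C.x j ∧ C.x j ∈ C.T (j + 2) ∧ C.x j ∈ C.T (j + 3) ∧ C.x j ∉ C.T (j + 4)) := by
  have e2 : j + 1 + 1 = j + 2 := by rw [add_assoc]; rfl
  have e3 : j + 2 + 1 = j + 3 := by rw [add_assoc]; rfl
  have e4 : j + 3 + 1 = j + 4 := by rw [add_assoc]; rfl
  have e5 : j + 4 + 1 = j := by rw [add_assoc]; exact add_zero j
  have n1 : j + 1 ≠ j := by revert j; decide
  have n2 : j + 2 ≠ j := by revert j; decide
  have n3 : j + 3 ≠ j := by revert j; decide
  have m1 := C.x_mem j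
  by_cases h1 : C.x j = C.y (j + 1)
  · left
    have a2 : C.x j ∉ C.T (j + 2) := by
      rw [← e2, C.mem_succ]; exact fun h => h.2 h1
    have a3 : C.x j ∉ C.T (j + 3) := by
      rw [← e3]; exact C.not_mem_succ n2 a2
    have a4 : C.x j ∉ C.T (j + 4) := by
      rw [← e4]; exact C.not_mem_succ n3 a3
    exact ⟨h1.symm, a2, a3, a4⟩
  · right
    have a2 : C.x j ∈ C.T (j + 2) := by
      rw [← e2, C.mem_succ]; exact ⟨Or.inr m1, h1⟩
    by_cases h2 : C.x j = C.y (j + 2)
    · left
      have a3 : C.x j ∉ C.T (j + 3) := by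
        rw [← e3, C.mem_succ]; exact fun h => h.2 h2
      have a4 : C.x j ∉ C.T (j + 4) := by
        rw [← e4]; exact C.not_mem_succ n3 a3
      exact ⟨h2.symm, a2, a3, a4⟩
    · right
      have a3 : C.x j ∈ C.T (j + 3) := by
        rw [← e3, C.mem_succ]; exact ⟨Or.inr a2, h2⟩
      by_cases h3 : C.x j = C.y (j + 3)
      · have a4 : C.x j ∉ C.T (j + 4) := by
          rw [← e4, C.mem_succ]; exact fun h => h.2 h3
        exact ⟨h3.symm, a2, a3, a4⟩
      · exfalso
        have a4 : C.x j ∈ C.T (j + 4) := by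
          rw [← e4, C.mem_succ]; exact ⟨Or.inr a3, h3⟩
        have a5 : C.x j ∉ C.T (j + 4 + 1) := by rw [e5]; exact C.hx j
        rw [C.mem_succ] at a5
        have h4 : C.x j = C.y (j + 4) := by
          by_contra hne
          exact a5 ⟨Or.inr a4, hne⟩
        have := C.hyx (j + 4)
        rw [e5] at this
        exact this h4.symm

/-- The length of the interval of sets containing `x j`, minus one. -/
def Len (C : Cfg v w) (j : Fin 5) (l : Fin 3) : Prop :=
  (l = 0 → C.y (j + 1) = C.x j ∧ C.x j ∉ C.T (j + 2) ∧ C.x j ∉ C.T (j + 3) ∧ C.x j ∉ C.T (j + 4)) ∧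
  (l = 1 → C.y (j + 2) = C.x j ∧ C.x j ∈ C.T (j + 2) ∧ C.x j ∉ C.T (j + 3) ∧ C.x j ∉ C.T (j + 4)) ∧
  (l = 2 → C.y (j + 3) = C.x j ∧ C.x j ∈ C.T (j + 2) ∧ C.x j ∈ C.T (j + 3) ∧ C.x j ∉ C.T (j + 4))

lemma exists_len (C : Cfg v w) (j : Fin 5) : ∃ l, C.Len j l := by
  rcases C.tri j with h | h | h
  · exact ⟨0, fun _ => h, fun h' => absurd h' (by decide), fun h' => absurd h' (by decide)⟩
  · exact ⟨1, fun h' => absurd h' (by decide), fun _ => h, fun h' => absurd h' (by decide)⟩
  · exact ⟨2, fun h' => absurd h' (by decide), fun h' => absurd h' (by decide), fun _ => h⟩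

/-- The removal time determined by the length. -/
def rem (j : Fin 5) (l : Fin 3) : Fin 5 :=
  if l = 0 then j + 1 else if l = 1 then j + 2 else j + 3

lemma y_rem (C : Cfg v w) {j : Fin 5} {l : Fin 3} (h : C.Len j l) : C.y (rem j l) = C.x j := by
  obtain ⟨h0, h1, h2⟩ := h
  have key : ∀ l : Fin 3, l = 0 ∨ l = 1 ∨ l = 2 := by decide
  rcases key l with hl | hl | hl <;> subst hl
  · exact (h0 rfl).1
  · exact (h1 rfl).1
  · exact (h2 rfl).1

lemma rem_inj (C : Cfg v w) {j j' : Fin 5} {l l' : Fin 3} (h : C.Len j l) (h' : C.Len j' l')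
    (he : rem j l = rem j' l') : j = j' := by
  apply C.x_inj
  rw [← C.y_rem h, ← C.y_rem h', he]

lemma shift_len (C : Cfg v w) (s j : Fin 5) (l : Fin 3) (h : C.Len (s + j) l) :
    (C.shift s).Len j l := by
  unfold Len at h ⊢
  simp only [shift, ← add_assoc]
  exact h

/-- The basic equation. -/
lemma eqn (C : Cfg v w) (i m : Fin 5) :
    ∑ j : Fin 5, (if C.x j ∈ insert (C.x i) (C.T i) then C.c i (C.x j) * C.g m (v (C.x j)) else 0)
      = 1 := by
  have h1 : ∑ z ∈ insert (C.x i) (C.T i), C.c i z * C.g m (v z) = 1 := by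
    have := congrArg (C.g m) (C.hc i)
    rw [C.hgw, map_sum] at this
    simp only [map_smul, smul_eq_mul] at this
    exact this.symm
  rw [← h1]
  -- elements outside the range of `x` lie in all the sets `T m`
  have hout : ∀ z ∈ insert (C.x i) (C.T i), z ∉ Finset.univ.image C.x → C.g m (v z) = 0 := by
    intro z hz hzr
    have hne : ∀ j, z ≠ C.x j := by
      intro j hj
      exact hzr (Finset.mem_image.mpr ⟨j, Finset.mem_univ _, hj.symm⟩)
    have hback : ∀ k, z ∈ C.T (k + 1) → z ∈ C.T k := by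
      intro k hk
      rcases ((C.mem_succ k z).mp hk).1 with h | h
      · exact absurd h (hne k)
      · exact h
    have hzi : z ∈ C.T i := by
      rcases Finset.mem_insert.mp hz with h | h
      · exact absurd h (hne i)
      · exact h
    have hall : ∀ m, z ∈ C.T m := by
      have b1 : ∀ k : Fin 5, z ∈ C.T k → z ∈ C.T (k + 4) := by
        intro k hk
        apply hback
        have : k + 4 + 1 = k := by rw [add_assoc]; exact add_zero k
        rw [this]; exact hk
      have a0 := hzi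
      have a1 := b1 _ a0
      have a2 := b1 _ a1
      have a3 := b1 _ a2
      have a4 := b1 _ a3
      intro m
      have key : ∀ i m : Fin 5, m = i ∨ m = i + 4 ∨ m = i + 4 + 4 ∨ m = i + 4 + 4 + 4 ∨
          m = i + 4 + 4 + 4 + 4 := by decide
      rcases key i m with h | h | h | h | h <;> rw [h] <;> assumption
    exact C.hg m z (hall m)
  have h2 : ∑ z ∈ insert (C.x i) (C.T i), C.c i z * C.g m (v z)
      = ∑ z ∈ (Finset.univ.image C.x).filter (fun z => z ∈ insert (C.x i) (C.T i)),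
        C.c i z * C.g m (v z) := by
    have h3 : (Finset.univ.image C.x).filter (fun z => z ∈ insert (C.x i) (C.T i))
        = (insert (C.x i) (C.T i)).filter (fun z => z ∈ Finset.univ.image C.x) := by
      ext z; simp only [Finset.mem_filter]; tauto
    rw [h3, Finset.sum_filter]
    apply Finset.sum_congr rfl
    intro z hz
    by_cases hzr : z ∈ Finset.univ.image C.x
    · rw [if_pos hzr]
    · rw [if_neg hzr, hout z hz hzr, mul_zero]
  rw [h2, Finset.sum_filter, Finset.sum_image (fun a _ b _ h => C.x_inj h)]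

lemma cx (C : Cfg v w) (i : Fin 5) : C.c i (C.x i) = 1 := by
  have h1 : ∑ z ∈ insert (C.x i) (C.T i), C.c i z * C.g i (v z) = 1 := by
    have := congrArg (C.g i) (C.hc i)
    rw [C.hgw, map_sum] at this
    simp only [map_smul, smul_eq_mul] at this
    exact this.symm
  rw [Finset.sum_insert (C.hx i), C.hgx i, mul_one,
    Finset.sum_eq_zero (fun z hz => by rw [C.hg i z hz, mul_zero]), add_zero] at h1
  exact h1

lemma cy (C : Cfg v w) (i : Fin 5) : C.c i (C.y i) = 1 := by
  have h1 : ∑ z ∈ insert (C.x i) (C.T i), C.c i z * C.g (i + 1) (v z) = 1 := by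
    have := congrArg (C.g (i + 1)) (C.hc i)
    rw [C.hgw, map_sum] at this
    simp only [map_smul, smul_eq_mul] at this
    exact this.symm
  rw [C.hS i, Finset.sum_insert (C.hy i), C.hgy i, mul_one,
    Finset.sum_eq_zero (fun z hz => by rw [C.hg (i + 1) z hz, mul_zero]), add_zero] at h1
  exact h1

end Cfg

end Pool.Agent.Lib.MP_5e2afd_co
end

section

section

set_option autoImplicit false
set_option linter.unusedSimpArgs false
open Finset

namespace Pool.Agent.Lib.MP_5e2afd_co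

/-- The entries known for an index whose interval has length `l + 1`. -/
def Facts (A M : Fin 5 → Fin 5 → ZMod 3) (j : Fin 5) (l : Fin 3) : Prop :=
  A j j = 1 ∧ M j j = 1 ∧ M (j + 1) j = 0 ∧
  (l = 0 → A (j + 1) j = 1 ∧ A (j + 2) j = 0 ∧ A (j + 3) j = 0 ∧ A (j + 4) j = 0 ∧
    M (j + 2) j = 1) ∧
  (l = 1 → A (j + 2) j = 1 ∧ A (j + 3) j = 0 ∧ A (j + 4) j = 0 ∧
    M (j + 2) j = 0 ∧ M (j + 3) j = 1) ∧
  (l = 2 → A (j + 3) j = 1 ∧ A (j + 4) j = 0 ∧
    M (j + 2) j = 0 ∧ M (j + 3) j = 0 ∧ M (j + 4) j = 1)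

lemma type_a (A M : Fin 5 → Fin 5 → ZMod 3) (E : ∀ i m, ∑ j, A i j * M m j = 1)
    (h0 : Facts A M 0 0) (h1 : Facts A M 1 0) (h2 : Facts A M 2 0) (h3 : Facts A M 3 0) (h4 : Facts A M 4 0) :
    False := by
  obtain ⟨a00, m00, m10, f0, -, -⟩ := h0
  obtain ⟨a10, a20, a30, a40, m20⟩ := f0 rfl
  obtain ⟨a11, m11, m21, f1, -, -⟩ := h1
  obtain ⟨a21, a31, a41, a01, m31⟩ := f1 rfl
  obtain ⟨a22, m22, m32, f2, -, -⟩ := h2
  obtain ⟨a32, a42, a02, a12, m42⟩ := f2 rfl
  obtain ⟨a33, m33, m43, f3, -, -⟩ := h3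
  obtain ⟨a43, a03, a13, a23, m03⟩ := f3 rfl
  obtain ⟨a44, m44, m04, f4, -, -⟩ := h4
  obtain ⟨a04, a14, a24, a34, m14⟩ := f4 rfl
  change A 1 0 = 1 at a10
  change A 2 0 = 0 at a20
  change A 3 0 = 0 at a30
  change A 4 0 = 0 at a40
  change M 2 0 = 1 at m20
  change M 1 0 = 0 at m10
  change A 2 1 = 1 at a21
  change A 3 1 = 0 at a31
  change A 4 1 = 0 at a41
  change A 0 1 = 0 at a01
  change M 3 1 = 1 at m31
  change M 2 1 = 0 at m21
  change A 3 2 = 1 at a32
  change A 4 2 = 0 at a42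
  change A 0 2 = 0 at a02
  change A 1 2 = 0 at a12
  change M 4 2 = 1 at m42
  change M 3 2 = 0 at m32
  change A 4 3 = 1 at a43
  change A 0 3 = 0 at a03
  change A 1 3 = 0 at a13
  change A 2 3 = 0 at a23
  change M 0 3 = 1 at m03
  change M 4 3 = 0 at m43
  change A 0 4 = 1 at a04
  change A 1 4 = 0 at a14
  change A 2 4 = 0 at a24
  change A 3 4 = 0 at a34
  change M 1 4 = 1 at m14
  change M 0 4 = 0 at m04
  have e0 := E 1 0
  have e1 := E 2 0
  have e2 := E 3 0
  have e3 := E 4 0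
  have e4 := E 0 0
  rw [Fin.sum_univ_five] at e0 e1 e2 e3 e4
  simp only [a00, a01, a02, a03, a04, a10, a11, a12, a13, a14, a20, a21, a22, a23, a24, a30, a31, a32, a33, a34, a40, a41, a42, a43, a44, m00, m03, m04, m10, m11, m14, m20, m21, m22, m31, m32, m33, m42, m43, m44, one_mul, mul_one, mul_zero, zero_mul, add_zero, zero_add] at e0 e1 e2 e3 e4
  clear a00 a01 a02 a03 a04 a10 a11 a12 a13 a14 a20 a21 a22 a23 a24 a30 a31 a32 a33 a34 a40 a41 a42 a43 a44 m00 m03 m04 m10 m11 m14 m20 m21 m22 m31 m32 m33 m42 m43 m44 E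
  generalize M 0 1 = u0 at *
  generalize M 0 2 = u1 at *
  revert u0 u1
  decide

lemma type_b (A M : Fin 5 → Fin 5 → ZMod 3) (E : ∀ i m, ∑ j, A i j * M m j = 1)
    (h0 : Facts A M 0 2) (h1 : Facts A M 1 2) (h2 : Facts A M 2 2) (h3 : Facts A M 3 2) (h4 : Facts A M 4 2) :
    False := by
  obtain ⟨a00, m00, m10, -, -, f0⟩ := h0
  obtain ⟨a30, a40, m20, m30, m40⟩ := f0 rfl
  obtain ⟨a11, m11, m21, -, -, f1⟩ := h1
  obtain ⟨a41, a01, m31, m41, m01⟩ := f1 rfl
  obtain ⟨a22, m22, m32, -, -, f2⟩ := h2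
  obtain ⟨a02, a12, m42, m02, m12⟩ := f2 rfl
  obtain ⟨a33, m33, m43, -, -, f3⟩ := h3
  obtain ⟨a13, a23, m03, m13, m23⟩ := f3 rfl
  obtain ⟨a44, m44, m04, -, -, f4⟩ := h4
  obtain ⟨a24, a34, m14, m24, m34⟩ := f4 rfl
  change A 3 0 = 1 at a30
  change A 4 0 = 0 at a40
  change M 2 0 = 0 at m20
  change M 3 0 = 0 at m30
  change M 4 0 = 1 at m40
  change M 1 0 = 0 at m10
  change A 4 1 = 1 at a41
  change A 0 1 = 0 at a01
  change M 3 1 = 0 at m31
  change M 4 1 = 0 at m41
  change M 0 1 = 1 at m01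
  change M 2 1 = 0 at m21
  change A 0 2 = 1 at a02
  change A 1 2 = 0 at a12
  change M 4 2 = 0 at m42
  change M 0 2 = 0 at m02
  change M 1 2 = 1 at m12
  change M 3 2 = 0 at m32
  change A 1 3 = 1 at a13
  change A 2 3 = 0 at a23
  change M 0 3 = 0 at m03
  change M 1 3 = 0 at m13
  change M 2 3 = 1 at m23
  change M 4 3 = 0 at m43
  change A 2 4 = 1 at a24
  change A 3 4 = 0 at a34
  change M 1 4 = 0 at m14
  change M 2 4 = 0 at m24
  change M 3 4 = 1 at m34
  change M 0 4 = 0 at m04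
  have e0 := E 0 2
  have e1 := E 0 3
  have e2 := E 0 4
  rw [Fin.sum_univ_five] at e0 e1 e2
  simp only [a00, a01, a02, a11, a12, a13, a22, a23, a24, a30, a33, a34, a40, a41, a44, m00, m01, m02, m03, m04, m10, m11, m12, m13, m14, m20, m21, m22, m23, m24, m30, m31, m32, m33, m34, m40, m41, m42, m43, m44, one_mul, mul_one, mul_zero, zero_mul, add_zero, zero_add] at e0 e1 e2
  clear a00 a01 a02 a11 a12 a13 a22 a23 a24 a30 a33 a34 a40 a41 a44 m00 m01 m02 m03 m04 m10 m11 m12 m13 m14 m20 m21 m22 m23 m24 m30 m31 m32 m33 m34 m40 m41 m42 m43 m44 E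
  generalize A 0 3 = u0 at *
  generalize A 0 4 = u1 at *
  revert u0 u1
  decide

lemma type_c (A M : Fin 5 → Fin 5 → ZMod 3) (E : ∀ i m, ∑ j, A i j * M m j = 1)
    (h0 : Facts A M 0 1) (h1 : Facts A M 1 1) (h2 : Facts A M 2 1) (h3 : Facts A M 3 1) (h4 : Facts A M 4 1) :
    False := by
  obtain ⟨a00, m00, m10, -, f0, -⟩ := h0
  obtain ⟨a20, a30, a40, m20, m30⟩ := f0 rfl
  obtain ⟨a11, m11, m21, -, f1, -⟩ := h1
  obtain ⟨a31, a41, a01, m31, m41⟩ := f1 rfl
  obtain ⟨a22, m22, m32, -, f2, -⟩ := h2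
  obtain ⟨a42, a02, a12, m42, m02⟩ := f2 rfl
  obtain ⟨a33, m33, m43, -, f3, -⟩ := h3
  obtain ⟨a03, a13, a23, m03, m13⟩ := f3 rfl
  obtain ⟨a44, m44, m04, -, f4, -⟩ := h4
  obtain ⟨a14, a24, a34, m14, m24⟩ := f4 rfl
  change A 2 0 = 1 at a20
  change A 3 0 = 0 at a30
  change A 4 0 = 0 at a40
  change M 2 0 = 0 at m20
  change M 3 0 = 1 at m30
  change M 1 0 = 0 at m10
  change A 3 1 = 1 at a31
  change A 4 1 = 0 at a41
  change A 0 1 = 0 at a01
  change M 3 1 = 0 at m31
  change M 4 1 = 1 at m41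
  change M 2 1 = 0 at m21
  change A 4 2 = 1 at a42
  change A 0 2 = 0 at a02
  change A 1 2 = 0 at a12
  change M 4 2 = 0 at m42
  change M 0 2 = 1 at m02
  change M 3 2 = 0 at m32
  change A 0 3 = 1 at a03
  change A 1 3 = 0 at a13
  change A 2 3 = 0 at a23
  change M 0 3 = 0 at m03
  change M 1 3 = 1 at m13
  change M 4 3 = 0 at m43
  change A 1 4 = 1 at a14
  change A 2 4 = 0 at a24
  change A 3 4 = 0 at a34
  change M 1 4 = 0 at m14
  change M 2 4 = 1 at m24
  change M 0 4 = 0 at m04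
  have e0 := E 0 2
  have e1 := E 0 4
  have e2 := E 0 3
  have e3 := E 3 0
  have e4 := E 3 2
  have e5 := E 3 1
  have e6 := E 1 3
  have e7 := E 1 0
  have e8 := E 1 4
  rw [Fin.sum_univ_five] at e0 e1 e2 e3 e4 e5 e6 e7 e8
  simp only [a00, a01, a02, a03, a11, a12, a13, a14, a20, a22, a23, a24, a30, a31, a33, a34, a40, a41, a42, a44, m00, m02, m03, m04, m10, m11, m13, m14, m20, m21, m22, m24, m30, m31, m32, m33, m41, m42, m43, m44, one_mul, mul_one, mul_zero, zero_mul, add_zero, zero_add] at e0 e1 e2 e3 e4 e5 e6 e7 e8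
  clear a00 a01 a02 a03 a11 a12 a13 a14 a20 a22 a23 a24 a30 a31 a33 a34 a40 a41 a42 a44 m00 m02 m03 m04 m10 m11 m13 m14 m20 m21 m22 m24 m30 m31 m32 m33 m41 m42 m43 m44 E
  generalize A 0 4 = u0 at *
  generalize A 1 0 = u1 at *
  generalize A 3 2 = u2 at *
  generalize M 0 1 = u3 at *
  generalize M 1 2 = u4 at *
  generalize M 2 3 = u5 at *
  generalize M 3 4 = u6 at *
  generalize M 4 0 = u7 at *
  revert u0 u1 u2 u3 u4 u5 u6 u7
  decide

lemma type_d (A M : Fin 5 → Fin 5 → ZMod 3) (E : ∀ i m, ∑ j, A i j * M m j = 1)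
    (h0 : Facts A M 0 1) (h1 : Facts A M 1 1) (h2 : Facts A M 2 2) (h3 : Facts A M 3 0) (h4 : Facts A M 4 1) :
    False := by
  obtain ⟨a00, m00, m10, -, f0, -⟩ := h0
  obtain ⟨a20, a30, a40, m20, m30⟩ := f0 rfl
  obtain ⟨a11, m11, m21, -, f1, -⟩ := h1
  obtain ⟨a31, a41, a01, m31, m41⟩ := f1 rfl
  obtain ⟨a22, m22, m32, -, -, f2⟩ := h2
  obtain ⟨a02, a12, m42, m02, m12⟩ := f2 rfl
  obtain ⟨a33, m33, m43, f3, -, -⟩ := h3
  obtain ⟨a43, a03, a13, a23, m03⟩ := f3 rfl
  obtain ⟨a44, m44, m04, -, f4, -⟩ := h4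
  obtain ⟨a14, a24, a34, m14, m24⟩ := f4 rfl
  change A 2 0 = 1 at a20
  change A 3 0 = 0 at a30
  change A 4 0 = 0 at a40
  change M 2 0 = 0 at m20
  change M 3 0 = 1 at m30
  change M 1 0 = 0 at m10
  change A 3 1 = 1 at a31
  change A 4 1 = 0 at a41
  change A 0 1 = 0 at a01
  change M 3 1 = 0 at m31
  change M 4 1 = 1 at m41
  change M 2 1 = 0 at m21
  change A 0 2 = 1 at a02
  change A 1 2 = 0 at a12
  change M 4 2 = 0 at m42
  change M 0 2 = 0 at m02
  change M 1 2 = 1 at m12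
  change M 3 2 = 0 at m32
  change A 4 3 = 1 at a43
  change A 0 3 = 0 at a03
  change A 1 3 = 0 at a13
  change A 2 3 = 0 at a23
  change M 0 3 = 1 at m03
  change M 4 3 = 0 at m43
  change A 1 4 = 1 at a14
  change A 2 4 = 0 at a24
  change A 3 4 = 0 at a34
  change M 1 4 = 0 at m14
  change M 2 4 = 1 at m24
  change M 0 4 = 0 at m04
  have e0 := E 0 2
  have e1 := E 0 4
  have e2 := E 1 4
  have e3 := E 1 0
  have e4 := E 3 0
  rw [Fin.sum_univ_five] at e0 e1 e2 e3 e4
  simp only [a00, a01, a02, a03, a11, a12, a13, a14, a20, a22, a23, a24, a30, a31, a33, a34, a40, a41, a43, a44, m00, m02, m03, m04, m10, m11, m12, m14, m20, m21, m22, m24, m30, m31, m32, m33, m41, m42, m43, m44, one_mul, mul_one, mul_zero, zero_mul, add_zero, zero_add] at e0 e1 e2 e3 e4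
  clear a00 a01 a02 a03 a11 a12 a13 a14 a20 a22 a23 a24 a30 a31 a33 a34 a40 a41 a43 a44 m00 m02 m03 m04 m10 m11 m12 m14 m20 m21 m22 m24 m30 m31 m32 m33 m41 m42 m43 m44 E
  generalize A 0 4 = u0 at *
  generalize A 1 0 = u1 at *
  generalize M 0 1 = u2 at *
  generalize M 4 0 = u3 at *
  revert u0 u1 u2 u3
  decide

lemma type_e (A M : Fin 5 → Fin 5 → ZMod 3) (E : ∀ i m, ∑ j, A i j * M m j = 1)
    (h0 : Facts A M 0 1) (h1 : Facts A M 1 2) (h2 : Facts A M 2 0) (h3 : Facts A M 3 2) (h4 : Facts A M 4 0) :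
    False := by
  obtain ⟨a00, m00, m10, -, f0, -⟩ := h0
  obtain ⟨a20, a30, a40, m20, m30⟩ := f0 rfl
  obtain ⟨a11, m11, m21, -, -, f1⟩ := h1
  obtain ⟨a41, a01, m31, m41, m01⟩ := f1 rfl
  obtain ⟨a22, m22, m32, f2, -, -⟩ := h2
  obtain ⟨a32, a42, a02, a12, m42⟩ := f2 rfl
  obtain ⟨a33, m33, m43, -, -, f3⟩ := h3
  obtain ⟨a13, a23, m03, m13, m23⟩ := f3 rfl
  obtain ⟨a44, m44, m04, f4, -, -⟩ := h4
  obtain ⟨a04, a14, a24, a34, m14⟩ := f4 rfl
  change A 2 0 = 1 at a20
  change A 3 0 = 0 at a30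
  change A 4 0 = 0 at a40
  change M 2 0 = 0 at m20
  change M 3 0 = 1 at m30
  change M 1 0 = 0 at m10
  change A 4 1 = 1 at a41
  change A 0 1 = 0 at a01
  change M 3 1 = 0 at m31
  change M 4 1 = 0 at m41
  change M 0 1 = 1 at m01
  change M 2 1 = 0 at m21
  change A 3 2 = 1 at a32
  change A 4 2 = 0 at a42
  change A 0 2 = 0 at a02
  change A 1 2 = 0 at a12
  change M 4 2 = 1 at m42
  change M 3 2 = 0 at m32
  change A 1 3 = 1 at a13
  change A 2 3 = 0 at a23
  change M 0 3 = 0 at m03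
  change M 1 3 = 0 at m13
  change M 2 3 = 1 at m23
  change M 4 3 = 0 at m43
  change A 0 4 = 1 at a04
  change A 1 4 = 0 at a14
  change A 2 4 = 0 at a24
  change A 3 4 = 0 at a34
  change M 1 4 = 1 at m14
  change M 0 4 = 0 at m04
  have e0 := E 0 4
  have e1 := E 1 4
  rw [Fin.sum_univ_five] at e0 e1
  simp only [a00, a01, a02, a04, a11, a12, a13, a14, a20, a22, a23, a24, a30, a32, a33, a34, a40, a41, a42, a44, m00, m01, m03, m04, m10, m11, m13, m14, m20, m21, m22, m23, m30, m31, m32, m33, m41, m42, m43, m44, one_mul, mul_one, mul_zero, zero_mul, add_zero, zero_add] at e0 e1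
  clear a00 a01 a02 a04 a11 a12 a13 a14 a20 a22 a23 a24 a30 a32 a33 a34 a40 a41 a42 a44 m00 m01 m03 m04 m10 m11 m13 m14 m20 m21 m22 m23 m30 m31 m32 m33 m41 m42 m43 m44 E
  generalize A 1 0 = u0 at *
  generalize M 4 0 = u1 at *
  revert u0 u1
  decide

/-- Canonical length patterns. -/
def pat : Fin 5 → Fin 5 → Fin 3 :=
  ![![0, 0, 0, 0, 0], ![2, 2, 2, 2, 2], ![1, 1, 1, 1, 1], ![1, 1, 2, 0, 1], ![1, 2, 0, 2, 0]]

lemma canon0 : ∀ l0 l1 l2 l3 l4 : Fin 3,
    (Cfg.rem 0 l0 ≠ Cfg.rem 1 l1) → (Cfg.rem 0 l0 ≠ Cfg.rem 2 l2) →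
    (Cfg.rem 0 l0 ≠ Cfg.rem 3 l3) → (Cfg.rem 0 l0 ≠ Cfg.rem 4 l4) →
    (Cfg.rem 1 l1 ≠ Cfg.rem 2 l2) → (Cfg.rem 1 l1 ≠ Cfg.rem 3 l3) →
    (Cfg.rem 1 l1 ≠ Cfg.rem 4 l4) → (Cfg.rem 2 l2 ≠ Cfg.rem 3 l3) →
    (Cfg.rem 2 l2 ≠ Cfg.rem 4 l4) → (Cfg.rem 3 l3 ≠ Cfg.rem 4 l4) →
    ∃ s k : Fin 5, ∀ j : Fin 5, (![l0, l1, l2, l3, l4] : Fin 5 → Fin 3) (s + j) = pat k j := by
  decide

namespace Cfg

variable {n : ℕ} {V : Type} [AddCommGroup V] [Module (ZMod 3) V] {v : Fin n → V} {w : V}

/-- Coefficient matrix. -/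
def A (C : Cfg v w) (i j : Fin 5) : ZMod 3 :=
  if C.x j ∈ insert (C.x i) (C.T i) then C.c i (C.x j) else 0

/-- Value matrix. -/
def M (C : Cfg v w) (m j : Fin 5) : ZMod 3 := C.g m (v (C.x j))

lemma eqn' (C : Cfg v w) (i m : Fin 5) : ∑ j, C.A i j * C.M m j = 1 := by
  rw [← C.eqn i m]
  apply Finset.sum_congr rfl
  intro j _
  unfold A M
  split_ifs <;> simp

lemma A_zero (C : Cfg v w) {i j : Fin 5} (hij : j ≠ i) (h : C.x j ∉ C.T i) : C.A i j = 0 := by
  unfold A
  rw [if_neg]
  intro h1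
  rcases Finset.mem_insert.mp h1 with h2 | h2
  · exact hij (C.x_inj h2)
  · exact h h2

lemma A_self (C : Cfg v w) (j : Fin 5) : C.A j j = 1 := by
  unfold A
  rw [if_pos (Finset.mem_insert_self _ _), C.cx]

lemma A_y (C : Cfg v w) {i j : Fin 5} (h : C.y i = C.x j) : C.A i j = 1 := by
  unfold A
  rw [if_pos, ← h, C.cy]
  rw [← h]
  exact Finset.mem_insert_of_mem (C.y_mem i)

lemma M_zero (C : Cfg v w) {m j : Fin 5} (h : C.x j ∈ C.T m) : C.M m j = 0 := C.hg m _ h

lemma M_y (C : Cfg v w) {i j : Fin 5} (h : C.y i = C.x j) : C.M (i + 1) j = 1 := by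
  unfold M
  rw [← h]; exact C.hgy i

lemma facts (C : Cfg v w) (j : Fin 5) (l : Fin 3) (h : C.Len j l) : Facts C.A C.M j l := by
  have e2 : j + 1 + 1 = j + 2 := by rw [add_assoc]; rfl
  have e3 : j + 2 + 1 = j + 3 := by rw [add_assoc]; rfl
  have e4 : j + 3 + 1 = j + 4 := by rw [add_assoc]; rfl
  have key : ∀ j : Fin 5, j ≠ j + 2 ∧ j ≠ j + 3 ∧ j ≠ j + 4 := by decide
  obtain ⟨n2, n3, n4⟩ := key j
  obtain ⟨h0, h1, h2⟩ := h
  refine ⟨C.A_self j, C.hgx j, C.M_zero (C.x_mem j), ?_, ?_, ?_⟩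
  · intro hl
    obtain ⟨a, b, c, d⟩ := h0 hl
    refine ⟨C.A_y a, C.A_zero n2 b, C.A_zero n3 c, C.A_zero n4 d, ?_⟩
    rw [← e2]; exact C.M_y a
  · intro hl
    obtain ⟨a, b, c, d⟩ := h1 hl
    refine ⟨C.A_y a, C.A_zero n3 c, C.A_zero n4 d, C.M_zero b, ?_⟩
    rw [← e3]; exact C.M_y a
  · intro hl
    obtain ⟨a, b, c, d⟩ := h2 hl
    refine ⟨C.A_y a, C.A_zero n4 d, C.M_zero b, C.M_zero c, ?_⟩
    rw [← e4]; exact C.M_y a

/-- There is no 10-cycle in one linear structure. -/
theorem false (C : Cfg v w) : False := by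
  choose l hl using C.exists_len
  have hne : ∀ i j : Fin 5, i ≠ j → rem i (l i) ≠ rem j (l j) :=
    fun i j hij he => hij (C.rem_inj (hl i) (hl j) he)
  obtain ⟨s, k, hk⟩ := canon0 (l 0) (l 1) (l 2) (l 3) (l 4)
    (hne 0 1 (by decide)) (hne 0 2 (by decide)) (hne 0 3 (by decide)) (hne 0 4 (by decide))
    (hne 1 2 (by decide)) (hne 1 3 (by decide)) (hne 1 4 (by decide)) (hne 2 3 (by decide))
    (hne 2 4 (by decide)) (hne 3 4 (by decide))
  have hvec : (![l 0, l 1, l 2, l 3, l 4] : Fin 5 → Fin 3) = l := by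
    funext j; fin_cases j <;> rfl
  rw [hvec] at hk
  set D := C.shift s with hD
  have hF : ∀ j, Facts D.A D.M j (pat k j) := by
    intro j
    apply D.facts
    rw [← hk j]
    exact C.shift_len s j _ (hl (s + j))
  have hE := D.eqn'
  have key : ∀ k : Fin 5, k = 0 ∨ k = 1 ∨ k = 2 ∨ k = 3 ∨ k = 4 := by decide
  rcases key k with h | h | h | h | h <;> subst h
  · exact type_a _ _ hE (hF 0) (hF 1) (hF 2) (hF 3) (hF 4)
  · exact type_b _ _ hE (hF 0) (hF 1) (hF 2) (hF 3) (hF 4)
  · exact type_c _ _ hE (hF 0) (hF 1) (hF 2) (hF 3) (hF 4)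
  · exact type_d _ _ hE (hF 0) (hF 1) (hF 2) (hF 3) (hF 4)
  · exact type_e _ _ hE (hF 0) (hF 1) (hF 2) (hF 3) (hF 4)

end Cfg

end Pool.Agent.Lib.MP_5e2afd_co
end

section

set_option autoImplicit false
open Finset

namespace Pool.Agent.Lib.MP_5e2afd_co

instance : Fact (Nat.Prime 3) := ⟨by norm_num⟩

lemma norm_functional {K V : Type} [Field K] [AddCommGroup V] [Module K V] (U : Submodule K V)
    (w : V) (g : V →ₗ[K] K) (hg : ∀ z, z ∈ U ↔ g z = 0) (hw : g w ≠ 0) :
    ∃ g' : V →ₗ[K] K, (∀ z, z ∈ U ↔ g' z = 0) ∧ g' w = 1 := by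
  refine ⟨(g w)⁻¹ • g, fun z => ?_, ?_⟩
  · rw [hg, LinearMap.smul_apply, smul_eq_mul, mul_eq_zero]
    constructor
    · exact fun h => Or.inr h
    · rintro (h | h)
      · exact absurd h (inv_ne_zero hw)
      · exact h
  · rw [LinearMap.smul_apply, smul_eq_mul, inv_mul_cancel₀ hw]

section lin

variable {n r : ℕ}

/-- The space we work in. -/
abbrev Vec (r : ℕ) := Fin r → ZMod 3

/-- The span of the vectors of a set. -/
def W (v : Fin n → Vec r) (T : Finset (Fin n)) : Submodule (ZMod 3) (Vec r) :=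
  Submodule.span (ZMod 3) (v '' (T : Set (Fin n)))

/-- An upper set is alive. -/
def alS (v : Fin n → Vec r) (S : Finset (Fin n)) : Prop := W v S = ⊤

/-- A lower set is alive. -/
def alT (v : Fin n → Vec r) (w : Vec r) (T : Finset (Fin n)) : Prop :=
  Submodule.span (ZMod 3) {w} ⊔ W v T = ⊤

/-- An edge is kept. -/
def kept (v : Fin n → Vec r) (w : Vec r) (T : Finset (Fin n)) (x : Fin n) : Prop :=
  alS v (insert x T) ∧ w - v x ∈ W v T

lemma W_insert (v : Fin n → Vec r) (x : Fin n) (T : Finset (Fin n)) :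
    W v (insert x T) = Submodule.span (ZMod 3) {v x} ⊔ W v T := by
  unfold W
  rw [Finset.coe_insert, Set.image_insert_eq, Submodule.span_insert]

lemma W_ne_top (v : Fin n → Vec r) (T : Finset (Fin n)) (hT : T.card < r) : W v T ≠ ⊤ := by
  intro h
  have h1 : Module.finrank (ZMod 3) (W v T) ≤ (T.image v).card := by
    have := finrank_span_finset_le_card (R := ZMod 3) (T.image v)
    rw [Finset.coe_image] at this
    exact this
  rw [h, finrank_top, Module.finrank_fin_fun] at h1
  have := Finset.card_image_le (s := T) (f := v)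
  omega

lemma sup_top_iff (U : Submodule (ZMod 3) (Vec r)) (g : Vec r →ₗ[ZMod 3] ZMod 3)
    (hg : ∀ z, z ∈ U ↔ g z = 0) (hU : U ≠ ⊤) (b : Vec r) :
    Submodule.span (ZMod 3) {b} ⊔ U = ⊤ ↔ g b ≠ 0 := by
  constructor
  · intro h hb
    apply hU
    have : Submodule.span (ZMod 3) {b} ≤ U := by
      rw [Submodule.span_singleton_le_iff_mem, hg]; exact hb
    rw [← h]
    exact (sup_eq_right.mpr this).symm
  · intro hb
    rw [eq_top_iff]
    intro u _
    have h1 : u = (g u / g b) • b + (u - (g u / g b) • b) := by abel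
    rw [h1]
    apply Submodule.add_mem_sup
    · exact Submodule.smul_mem _ _ (Submodule.mem_span_singleton_self b)
    · rw [hg, map_sub, map_smul, smul_eq_mul, div_mul_cancel₀ _ hb, sub_self]

lemma exists_functional (U : Submodule (ZMod 3) (Vec r)) (hU : U ≠ ⊤) (a : Vec r)
    (ha : Submodule.span (ZMod 3) {a} ⊔ U = ⊤) :
    ∃ g : Vec r →ₗ[ZMod 3] ZMod 3, (∀ z, z ∈ U ↔ g z = 0) ∧ g a ≠ 0 := by
  obtain ⟨g, hg0, hgU⟩ := Submodule.exists_le_ker_of_lt_top U (lt_top_iff_ne_top.mpr hU)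
  have hga : g a ≠ 0 := by
    intro h
    apply hg0
    have h2 : Submodule.span (ZMod 3) {a} ⊔ U ≤ LinearMap.ker g := by
      apply sup_le _ hgU
      rw [Submodule.span_singleton_le_iff_mem]
      exact h
    rw [ha, top_le_iff] at h2
    exact LinearMap.ker_eq_top.mp h2
  refine ⟨g, fun z => ⟨fun hz => hgU hz, fun hz => ?_⟩, hga⟩
  have hz1 : z ∈ Submodule.span (ZMod 3) {a} ⊔ U := by rw [ha]; exact Submodule.mem_top
  obtain ⟨p, hp, q, hq, rfl⟩ := Submodule.mem_sup.mp hz1
  obtain ⟨c, rfl⟩ := Submodule.mem_span_singleton.mp hp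
  have hq' : g q = 0 := hgU hq
  rw [map_add, map_smul, hq', add_zero, smul_eq_mul] at hz
  have hc : c = 0 := by
    rcases mul_eq_zero.mp hz with h | h
    · exact h
    · exact absurd h hga
  rw [hc, zero_smul, zero_add]
  exact hq

/-- In terms of the functional, being kept means that the two values agree and are nonzero. -/
lemma kept_iff (v : Fin n → Vec r) (w : Vec r) (T : Finset (Fin n)) (x : Fin n)
    (hU : W v T ≠ ⊤) (g : Vec r →ₗ[ZMod 3] ZMod 3) (hg : ∀ z, z ∈ W v T ↔ g z = 0) :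
    kept v w T x ↔ g (v x) ≠ 0 ∧ g w = g (v x) := by
  unfold kept alS
  rw [W_insert, sup_top_iff _ g hg hU, hg, map_sub, sub_eq_zero]

lemma kept_alT {v : Fin n → Vec r} {w : Vec r} {T : Finset (Fin n)} {x : Fin n}
    (h : kept v w T x) : alT v w T := by
  obtain ⟨h1, h2⟩ := h
  unfold alS at h1
  rw [W_insert] at h1
  unfold alT
  rw [eq_top_iff, ← h1]
  apply sup_le _ le_sup_right
  rw [Submodule.span_singleton_le_iff_mem]
  have h3 : v x = w + -(w - v x) := by abel
  rw [h3]
  exact Submodule.add_mem_sup (Submodule.mem_span_singleton_self w) (Submodule.neg_mem _ h2)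

/-- The four maps. -/
def phi (x : Fin n) : Fin 4 → ((Fin n → Vec r) × Vec r) → ((Fin n → Vec r) × Vec r)
  | 0, ω => ω
  | 1, ω => (ω.1, ω.2 + ω.1 x)
  | 2, ω => (Function.update ω.1 x (ω.1 x + ω.2), ω.2)
  | 3, ω => (ω.1, -ω.2)

lemma phi_inj (x : Fin n) (k : Fin 4) : Function.Injective (phi (r := r) x k) := by
  intro a b h
  fin_cases k
  · exact h
  · simp only [phi, Prod.mk.injEq] at h
    obtain ⟨h1, h2⟩ := h
    rw [h1] at h2
    exact Prod.ext h1 (add_right_cancel h2)
  · simp only [phi, Prod.mk.injEq] at h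
    obtain ⟨h1, h2⟩ := h
    refine Prod.ext ?_ h2
    funext z
    have h3 := congrFun h1 z
    by_cases hz : z = x
    · subst hz
      rw [Function.update_self, Function.update_self, h2] at h3
      exact add_right_cancel h3
    · rw [Function.update_of_ne hz, Function.update_of_ne hz] at h3
      exact h3
  · simp only [phi, Prod.mk.injEq] at h
    exact Prod.ext h.1 (neg_injective h.2)

lemma W_update (v : Fin n → Vec r) (T : Finset (Fin n)) (x : Fin n) (hx : x ∉ T) (a : Vec r) :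
    W (Function.update v x a) T = W v T := by
  unfold W
  congr 1
  apply Set.image_congr
  intro z hz
  rw [Function.update_of_ne]
  rintro rfl
  exact hx hz

lemma key3 : ∀ s t : ZMod 3, (s ≠ 0 ∨ t ≠ 0) →
    (s ≠ 0 ∧ t = s) ∨ (s ≠ 0 ∧ t + s = s) ∨ (s + t ≠ 0 ∧ t = s + t) ∨ (s ≠ 0 ∧ -t = s) := by
  decide

lemma exists_phi (T : Finset (Fin n)) (x : Fin n) (hx : x ∉ T) (hT : T.card < r)
    (ω : (Fin n → Vec r) × Vec r) (h : alT ω.1 ω.2 T ∨ alS ω.1 (insert x T)) :
    ∃ k, kept (phi x k ω).1 (phi x k ω).2 T x := by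
  have hU := W_ne_top ω.1 T hT
  have hg : ∃ g : Vec r →ₗ[ZMod 3] ZMod 3, (∀ z, z ∈ W ω.1 T ↔ g z = 0) ∧
      (g (ω.1 x) ≠ 0 ∨ g ω.2 ≠ 0) := by
    rcases h with h | h
    · obtain ⟨g, h1, h2⟩ := exists_functional _ hU _ h
      exact ⟨g, h1, Or.inr h2⟩
    · unfold alS at h
      rw [W_insert] at h
      obtain ⟨g, h1, h2⟩ := exists_functional _ hU _ h
      exact ⟨g, h1, Or.inl h2⟩
  obtain ⟨g, hg, hne⟩ := hg
  rcases key3 _ _ hne with h | h | h | h
  · refine ⟨0, ?_⟩
    simp only [phi]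
    rw [kept_iff _ _ _ _ hU g hg]
    exact h
  · refine ⟨1, ?_⟩
    simp only [phi]
    rw [kept_iff _ _ _ _ hU g hg, map_add]
    exact h
  · refine ⟨2, ?_⟩
    simp only [phi]
    rw [kept_iff _ _ _ _ (by rw [W_update _ _ _ hx]; exact hU) g
      (by rw [W_update _ _ _ hx]; exact hg), Function.update_self, map_add]
    exact h
  · refine ⟨3, ?_⟩
    simp only [phi]
    rw [kept_iff _ _ _ _ hU g hg, map_neg]
    exact h

open Classical in
lemma count_le (T : Finset (Fin n)) (x : Fin n) (hx : x ∉ T) (hT : T.card < r) :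
    (univ.filter (fun ω : (Fin n → Vec r) × Vec r => alT ω.1 ω.2 T ∨ alS ω.1 (insert x T))).card ≤
      4 * (univ.filter (fun ω : (Fin n → Vec r) × Vec r => kept ω.1 ω.2 T x)).card := by
  set K := univ.filter (fun ω : (Fin n → Vec r) × Vec r => kept ω.1 ω.2 T x) with hK
  have h1 : univ.filter (fun ω : (Fin n → Vec r) × Vec r => alT ω.1 ω.2 T ∨ alS ω.1 (insert x T))
      ⊆ univ.biUnion (fun k : Fin 4 => univ.filter (fun ω => phi x k ω ∈ K)) := by
    intro ω hω
    rw [mem_filter] at hω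
    obtain ⟨k, hk⟩ := exists_phi T x hx hT ω hω.2
    rw [mem_biUnion]
    refine ⟨k, mem_univ _, ?_⟩
    rw [mem_filter, hK, mem_filter]
    exact ⟨mem_univ _, mem_univ _, hk⟩
  refine (card_le_card h1).trans (card_biUnion_le.trans ?_)
  have h2 : ∀ k ∈ (univ : Finset (Fin 4)),
      (univ.filter (fun ω : (Fin n → Vec r) × Vec r => phi x k ω ∈ K)).card ≤ K.card := by
    intro k _
    apply card_le_card_of_injOn (phi x k)
    · intro ω hω
      rw [mem_coe, mem_filter] at hω
      exact hω.2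
    · exact (phi_inj x k).injOn
  refine (sum_le_sum h2).trans ?_
  simp

end lin

/-- A family of edges (given by the lower set and the added element) contains a 10-cycle
between two levels. -/
def Bad {n : ℕ} (E : Finset (Finset (Fin n) × Fin n)) : Prop :=
  ∃ (T : Fin 5 → Finset (Fin n)) (x y : Fin 5 → Fin n),
    (∀ i, (T i, x i) ∈ E) ∧ (∀ i, (T (i + 1), y i) ∈ E) ∧
    (∀ i, insert (x i) (T i) = insert (y i) (T (i + 1))) ∧
    (∀ i, x i ≠ y i) ∧ (∀ i, y i ≠ x (i + 1))

lemma not_bad_kept {n r : ℕ} (v : Fin n → Vec r) (w : Vec r) (E : Finset (Finset (Fin n) × Fin n))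
    (h1 : ∀ p ∈ E, p.2 ∉ p.1 ∧ p.1.card < r) (h2 : ∀ p ∈ E, kept v w p.1 p.2) : ¬ Bad E := by
  rintro ⟨T, x, y, hx, hy, hS, hxy, hyx⟩
  have hg : ∀ i, ∃ g : Vec r →ₗ[ZMod 3] ZMod 3, (∀ z, z ∈ W v (T i) ↔ g z = 0) ∧ g w = 1 := by
    intro i
    have hU := W_ne_top v (T i) (h1 (T i, x i) (hx i)).2
    obtain ⟨g, hg1, hg2⟩ := exists_functional _ hU w (kept_alT (h2 (T i, x i) (hx i)))
    exact norm_functional _ w g hg1 hg2
  choose g hg using hg
  have hval : ∀ i z, (T i, z) ∈ E → g i (v z) = 1 := by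
    intro i z hz
    have := (h2 _ hz).2
    rw [(hg i).1, map_sub, (hg i).2, sub_eq_zero] at this
    exact this.symm
  have hc : ∀ i, ∃ c : Fin n → ZMod 3, ∑ z ∈ insert (x i) (T i), c z • v z = w := by
    intro i
    rw [← Submodule.mem_span_image_finset_iff_exists_fun']
    have := (h2 _ (hx i)).1
    unfold alS W at this
    rw [this]
    exact Submodule.mem_top
  choose c hc using hc
  exact Cfg.false (v := v) (w := w)
    { T := T, x := x, y := y
      hx := fun i => (h1 _ (hx i)).1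
      hy := fun i => (h1 _ (hy i)).1
      hS := hS
      hxy := hxy
      hyx := hyx
      g := g
      hg := fun i z hz => ((hg i).1 _).mp (Submodule.subset_span ⟨z, hz, rfl⟩)
      hgw := fun i => (hg i).2
      hgx := fun i => hval i _ (hx i)
      hgy := fun i => hval (i + 1) _ (hy i)
      c := c
      hc := fun i => (hc i).symm }

/-- Vertex-disjoint unions. -/
lemma not_bad_union {n : ℕ} {ι : Type} (E : Finset (Finset (Fin n) × Fin n))
    (f : Finset (Fin n) × Fin n → ι) (F : ι → Finset (Finset (Fin n) × Fin n))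
    (hF : ∀ p ∈ E, p ∈ F (f p))
    (hT : ∀ p ∈ E, ∀ q ∈ E, p.1 = q.1 → f p = f q)
    (hS : ∀ p ∈ E, ∀ q ∈ E, insert p.2 p.1 = insert q.2 q.1 → f p = f q)
    (h : ∀ i, ¬ Bad (F i)) : ¬ Bad E := by
  rintro ⟨T, x, y, hx, hy, hSS, hxy, hyx⟩
  have h1 : ∀ i, f (T i, x i) = f (T (i + 1), y i) := fun i => hS _ (hx i) _ (hy i) (hSS i)
  have h2 : ∀ i, f (T (i + 1), y i) = f (T (i + 1), x (i + 1)) :=
    fun i => hT _ (hy i) _ (hx (i + 1)) rfl
  have h3 : ∀ i, f (T (i + 1), x (i + 1)) = f (T i, x i) := fun i => ((h1 i).trans (h2 i)).symm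
  have h4 : ∀ i, f (T i, x i) = f (T 0, x 0) := by
    have a1 : f (T 1, x 1) = f (T 0, x 0) := h3 0
    have a2 : f (T 2, x 2) = f (T 1, x 1) := h3 1
    have a3 : f (T 3, x 3) = f (T 2, x 2) := h3 2
    have a4 : f (T 4, x 4) = f (T 3, x 3) := h3 3
    intro i
    fin_cases i
    · rfl
    · exact a1
    · exact a2.trans a1
    · exact a3.trans (a2.trans a1)
    · exact a4.trans (a3.trans (a2.trans a1))
  apply h (f (T 0, x 0))
  refine ⟨T, x, y, fun i => ?_, fun i => ?_, hSS, hxy, hyx⟩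
  · rw [← h4 i]; exact hF _ (hx i)
  · rw [← h4 i, h1 i]; exact hF _ (hy i)

end Pool.Agent.Lib.MP_5e2afd_co
end

section

set_option autoImplicit false
open Finset

namespace Pool.Agent.Lib.MP_5e2afd_co

open Classical in
/-- The cube edges between a family of lower sets and a family of upper sets. -/
noncomputable def pairs {n : ℕ} (TT SS : Finset (Finset (Fin n))) :
    Finset (Finset (Fin n) × Fin n) :=
  (TT ×ˢ univ).filter (fun p => p.2 ∉ p.1 ∧ insert p.2 p.1 ∈ SS)

lemma mem_pairs {n : ℕ} (TT SS : Finset (Finset (Fin n))) (p : Finset (Fin n) × Fin n) :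
    p ∈ pairs TT SS ↔ p.1 ∈ TT ∧ p.2 ∉ p.1 ∧ insert p.2 p.1 ∈ SS := by
  unfold pairs
  rw [mem_filter, mem_product]
  simp

/-- Some choice of vectors makes a given upper set alive. -/
lemma exists_alS {n r : ℕ} (S : Finset (Fin n)) (hS : S.card = r) :
    ∃ v : Fin n → Vec r, alS v S := by
  classical
  obtain ⟨e⟩ : Nonempty (S ≃ Fin r) := ⟨S.equivFinOfCardEq hS⟩
  refine ⟨fun z => if h : z ∈ S then Pi.single (e ⟨z, h⟩) 1 else 0, ?_⟩
  unfold alS W
  rw [eq_top_iff, ← (Pi.basisFun (ZMod 3) (Fin r)).span_eq]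
  apply Submodule.span_mono
  rintro _ ⟨i, rfl⟩
  refine ⟨(e.symm i : Fin n), (e.symm i).2, ?_⟩
  rw [Pi.basisFun_apply]
  simp

/-- The edge has an endpoint which is alive. -/
def tch {n r : ℕ} (ω : (Fin n → Vec r) × Vec r) (p : Finset (Fin n) × Fin n) : Prop :=
  alT ω.1 ω.2 p.1 ∨ alS ω.1 (insert p.2 p.1)

/-- The edge is kept. -/
def kpt {n r : ℕ} (ω : (Fin n → Vec r) × Vec r) (p : Finset (Fin n) × Fin n) : Prop :=
  kept ω.1 ω.2 p.1 p.2

open Classical in
lemma count_le' {n r : ℕ} (p : Finset (Fin n) × Fin n) (hx : p.2 ∉ p.1) (hT : p.1.card < r) :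
    (univ.filter (fun ω : (Fin n → Vec r) × Vec r => tch ω p)).card ≤
      4 * (univ.filter (fun ω : (Fin n → Vec r) × Vec r => kpt ω p)).card := by
  have h := count_le (r := r) p.1 p.2 hx hT
  have e1 : univ.filter (fun ω : (Fin n → Vec r) × Vec r => tch ω p) =
      univ.filter (fun ω : (Fin n → Vec r) × Vec r =>
        alT ω.1 ω.2 p.1 ∨ alS ω.1 (insert p.2 p.1)) := by
    ext ω
    rw [mem_filter, mem_filter]
    rfl
  rw [e1]
  exact h

open Classical in
lemma exists_good {n r : ℕ} (P : Finset (Finset (Fin n) × Fin n)) (hP : P.Nonempty)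
    (h : ∀ p ∈ P, p.2 ∉ p.1 ∧ p.1.card + 1 = r) :
    ∃ ω : (Fin n → Vec r) × Vec r,
      (P.filter (fun p => tch ω p)).Nonempty ∧
      (P.filter (fun p => tch ω p)).card ≤ 4 * (P.filter (fun p => kpt ω p)).card := by
  by_contra hcon
  push Not at hcon
  have hsub : ∀ ω : (Fin n → Vec r) × Vec r, P.filter (fun p => kpt ω p) ⊆ P.filter (fun p => tch ω p) := by
    intro ω p hp
    rw [mem_filter] at hp ⊢
    exact ⟨hp.1, Or.inl (kept_alT hp.2)⟩
  have hle : ∀ ω ∈ (univ : Finset ((Fin n → Vec r) × Vec r)),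
      4 * (P.filter (fun p => kpt ω p)).card ≤ (P.filter (fun p => tch ω p)).card := by
    intro ω _
    rcases (P.filter (fun p => tch ω p)).eq_empty_or_nonempty with h0 | h0
    · have : P.filter (fun p => kpt ω p) = ∅ := by
        rw [← subset_empty, ← h0]; exact hsub ω
      rw [this, h0]
      simp
    · exact (hcon ω h0).le
  have hlt : ∃ ω ∈ (univ : Finset ((Fin n → Vec r) × Vec r)),
      4 * (P.filter (fun p => kpt ω p)).card < (P.filter (fun p => tch ω p)).card := by
    obtain ⟨p, hp⟩ := hP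
    obtain ⟨hp1, hp2⟩ := h p hp
    obtain ⟨v, hv⟩ := exists_alS (insert p.2 p.1) (r := r)
      (by rw [card_insert_of_notMem hp1]; exact hp2)
    refine ⟨(v, 0), mem_univ _, hcon (v, 0) ⟨p, ?_⟩⟩
    rw [mem_filter]
    exact ⟨hp, Or.inr hv⟩
  have hsum := sum_lt_sum hle hlt
  rw [← mul_sum] at hsum
  have hsw : ∀ (q : ((Fin n → Vec r) × Vec r) → (Finset (Fin n) × Fin n) → Prop),
      ∑ ω : (Fin n → Vec r) × Vec r, (P.filter (fun p => q ω p)).card =
        ∑ p ∈ P, (univ.filter (fun ω => q ω p)).card := by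
    intro q
    exact sum_card_bipartiteAbove_eq_sum_card_bipartiteBelow q
  rw [hsw kpt, hsw tch, mul_sum] at hsum
  apply absurd hsum
  rw [not_lt]
  apply sum_le_sum
  intro p hp
  obtain ⟨hp1, hp2⟩ := h p hp
  exact count_le' p hp1 (by omega)

open Classical in
/-- The iteration. -/
lemma iter {n : ℕ} (r : ℕ) : ∀ (N : ℕ) (TT SS : Finset (Finset (Fin n))),
    (∀ T ∈ TT, T.card + 1 = r) → (pairs TT SS).card = N →
    ∃ E ⊆ pairs TT SS, (pairs TT SS).card ≤ 4 * E.card ∧ ¬ Bad E := by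
  intro N
  induction N using Nat.strong_induction_on with
  | _ N ih =>
    intro TT SS hTT hN
    rcases (pairs TT SS).eq_empty_or_nonempty with h0 | h0
    · refine ⟨∅, empty_subset _, by rw [h0]; simp, ?_⟩
      rintro ⟨T, x, y, hx, _⟩
      exact absurd (hx 0) (by simp)
    · have hP : ∀ p ∈ pairs TT SS, p.2 ∉ p.1 ∧ p.1.card + 1 = r := by
        intro p hp
        rw [mem_pairs] at hp
        exact ⟨hp.2.1, hTT _ hp.1⟩
      obtain ⟨ω, hne, hle⟩ := exists_good (pairs TT SS) h0 hP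
      obtain ⟨tc, htc⟩ : ∃ tc, tc = (pairs TT SS).filter (fun p => tch ω p) := ⟨_, rfl⟩
      obtain ⟨kp, hkp⟩ : ∃ kp, kp = (pairs TT SS).filter (fun p => kpt ω p) := ⟨_, rfl⟩
      obtain ⟨TT', hTT'⟩ : ∃ TT', TT' = TT.filter (fun T => ¬ alT ω.1 ω.2 T) := ⟨_, rfl⟩
      obtain ⟨SS', hSS'⟩ : ∃ SS', SS' = SS.filter (fun S => ¬ alS ω.1 S) := ⟨_, rfl⟩
      rw [← htc, ← hkp] at hle
      rw [← htc] at hne
      have hpair : pairs TT' SS' = pairs TT SS \ tc := by
        ext p
        rw [mem_sdiff, htc, mem_filter, mem_pairs, mem_pairs, hTT', hSS', mem_filter, mem_filter]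
        unfold tch
        tauto
      have htsub : tc ⊆ pairs TT SS := by rw [htc]; exact filter_subset _ _
      have hcard : (pairs TT' SS').card + tc.card = (pairs TT SS).card := by
        rw [hpair, card_sdiff_add_card_eq_card htsub]
      have htpos : 0 < tc.card := hne.card_pos
      obtain ⟨E', hE'sub, hE'card, hE'bad⟩ := ih (pairs TT' SS').card (by omega) TT' SS'
        (fun T hT => hTT T (by rw [hTT'] at hT; exact mem_of_mem_filter T hT)) rfl
      have hkT : ∀ p ∈ kp, alT ω.1 ω.2 p.1 := by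
        intro p hp
        rw [hkp, mem_filter] at hp
        exact kept_alT hp.2
      have hkS : ∀ p ∈ kp, alS ω.1 (insert p.2 p.1) := by
        intro p hp
        rw [hkp, mem_filter] at hp
        exact hp.2.1
      have hET : ∀ p ∈ E', ¬ alT ω.1 ω.2 p.1 := by
        intro p hp
        have h1 := ((mem_pairs _ _ _).mp (hE'sub hp)).1
        rw [hTT'] at h1
        exact (mem_filter.mp h1).2
      have hES : ∀ p ∈ E', ¬ alS ω.1 (insert p.2 p.1) := by
        intro p hp
        have h1 := ((mem_pairs _ _ _).mp (hE'sub hp)).2.2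
        rw [hSS'] at h1
        exact (mem_filter.mp h1).2
      have hdisj : Disjoint kp E' := by
        rw [disjoint_left]
        intro p hp hp'
        exact hET p hp' (hkT p hp)
      refine ⟨kp ∪ E', union_subset (by rw [hkp]; exact filter_subset _ _) ?_, ?_, ?_⟩
      · intro p hp
        have := hE'sub hp
        rw [hpair] at this
        exact (mem_sdiff.mp this).1
      · rw [card_union_of_disjoint hdisj]
        omega
      · apply not_bad_union (ι := Bool) (kp ∪ E') (fun p => decide (p ∈ kp))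
          (fun b => if b then kp else E')
        · intro p hp
          by_cases hpk : p ∈ kp
          · simp [hpk]
          · rcases mem_union.mp hp with h | h
            · exact absurd h hpk
            · simp [hpk, h]
        · intro p hp q hq hpq
          have aux : ∀ p q : Finset (Fin n) × Fin n, p ∈ kp → q ∈ kp ∪ E' → p.1 = q.1 →
              q ∈ kp := by
            intro p q hp hq hpq
            rcases mem_union.mp hq with h | h
            · exact h
            · exfalso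
              apply hET q h
              rw [← hpq]
              exact hkT p hp
          have : p ∈ kp ↔ q ∈ kp := ⟨fun h => aux p q h hq hpq, fun h => aux q p h hp hpq.symm⟩
          simp [this]
        · intro p hp q hq hpq
          have aux : ∀ p q : Finset (Fin n) × Fin n, p ∈ kp → q ∈ kp ∪ E' →
              insert p.2 p.1 = insert q.2 q.1 → q ∈ kp := by
            intro p q hp hq hpq
            rcases mem_union.mp hq with h | h
            · exact h
            · exfalso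
              apply hES q h
              rw [← hpq]
              exact hkS p hp
          have : p ∈ kp ↔ q ∈ kp := ⟨fun h => aux p q h hq hpq, fun h => aux q p h hp hpq.symm⟩
          simp [this]
        · intro b
          cases b
          · exact hE'bad
          · apply not_bad_kept ω.1 ω.2
            · intro p hp
              have hp' : p ∈ kp := hp
              rw [hkp, mem_filter] at hp'
              obtain ⟨h1, h2⟩ := hP p hp'.1
              exact ⟨h1, by omega⟩
            · intro p hp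
              have hp' : p ∈ kp := hp
              rw [hkp, mem_filter] at hp'
              exact hp'.2

/-- All cube edges. -/
noncomputable def allPairs (n : ℕ) : Finset (Finset (Fin n) × Fin n) :=
  pairs univ univ

open Classical in
/-- The level statement. -/
lemma level (n k : ℕ) : ∃ E ⊆ (allPairs n).filter (fun p => p.1.card = k),
    ((allPairs n).filter (fun p => p.1.card = k)).card ≤ 4 * E.card ∧ ¬ Bad E := by
  have h : (allPairs n).filter (fun p => p.1.card = k)
      = pairs ((univ : Finset (Finset (Fin n))).filter (fun T => T.card = k)) univ := by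
    ext p
    rw [allPairs, mem_filter, mem_pairs, mem_pairs, mem_filter]
    tauto
  rw [h]
  exact iter (k + 1) _ _ _ (fun T hT => by rw [(mem_filter.mp hT).2]) rfl

open Classical in
/-- The cube statement in terms of pairs. -/
lemma cube (n : ℕ) : ∃ E ⊆ allPairs n, ∃ ε : ℕ, (∀ p ∈ E, p.1.card % 2 = ε) ∧
    (allPairs n).card ≤ 8 * E.card ∧ ¬ Bad E := by
  choose E hEsub hEcard hEbad using level n
  -- the union over one parity class
  have hcl : ∀ ε : ℕ, ∃ F ⊆ allPairs n, (∀ p ∈ F, p.1.card % 2 = ε) ∧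
      ((allPairs n).filter (fun p => p.1.card % 2 = ε)).card ≤ 4 * F.card ∧ ¬ Bad F := by
    intro ε
    set F := (allPairs n).filter (fun p => p.1.card % 2 = ε ∧ p ∈ E p.1.card) with hF
    refine ⟨F, filter_subset _ _, fun p hp => (mem_filter.mp hp).2.1, ?_, ?_⟩
    · have m0 : ∀ G : Finset (Finset (Fin n) × Fin n),
          Set.MapsTo (fun p : Finset (Fin n) × Fin n => p.1.card) (G : Set _)
            (range (n + 1) : Finset ℕ) := by
        intro G p _
        show p.1.card ∈ ((range (n + 1) : Finset ℕ) : Set ℕ)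
        rw [mem_coe, mem_range]
        have := card_le_univ p.1
        rw [Fintype.card_fin] at this
        omega
      rw [card_eq_sum_card_fiberwise (m0 ((allPairs n).filter (fun p => p.1.card % 2 = ε))),
        card_eq_sum_card_fiberwise (m0 F), mul_sum]
      apply sum_le_sum
      intro k _
      by_cases hk : k % 2 = ε
      · have e1 : ((allPairs n).filter (fun p => p.1.card % 2 = ε)).filter (fun p => p.1.card = k)
            = (allPairs n).filter (fun p => p.1.card = k) := by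
          ext p
          simp only [mem_filter]
          constructor
          · rintro ⟨⟨a, _⟩, b⟩; exact ⟨a, b⟩
          · rintro ⟨a, b⟩; exact ⟨⟨a, by rw [b]; exact hk⟩, b⟩
        have e2 : F.filter (fun p => p.1.card = k) = E k := by
          ext p
          simp only [hF, mem_filter]
          constructor
          · rintro ⟨⟨_, _, c⟩, d⟩; rw [d] at c; exact c
          · intro hp
            have := mem_filter.mp (hEsub k hp)
            refine ⟨⟨this.1, ?_, ?_⟩, this.2⟩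
            · rw [this.2]; exact hk
            · rw [this.2]; exact hp
        rw [e1, e2]
        exact hEcard k
      · have e1 : ((allPairs n).filter (fun p => p.1.card % 2 = ε)).filter (fun p => p.1.card = k)
            = ∅ := by
          rw [filter_eq_empty_iff]
          intro p hp hpk
          apply hk
          rw [← hpk]
          exact (mem_filter.mp hp).2
        rw [e1]
        simp
    · have hpar : ∀ p ∈ F, p.1.card % 2 = ε := fun p hp => (mem_filter.mp hp).2.1
      apply not_bad_union F (fun p => p.1.card) E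
      · intro p hp
        exact (mem_filter.mp hp).2.2
      · intro p _ q _ h
        show p.1.card = q.1.card
        rw [h]
      · intro p hp q hq h
        show p.1.card = q.1.card
        have hp1 := (mem_pairs _ _ _).mp (mem_filter.mp hp).1
        have hq1 := (mem_pairs _ _ _).mp (mem_filter.mp hq).1
        have := congrArg Finset.card h
        rw [card_insert_of_notMem hp1.2.1, card_insert_of_notMem hq1.2.1] at this
        omega
      · exact hEbad
  obtain ⟨F0, s0, p0, c0, b0⟩ := hcl 0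
  obtain ⟨F1, s1, p1, c1, b1⟩ := hcl 1
  have htot : (allPairs n).card = ((allPairs n).filter (fun p => p.1.card % 2 = 0)).card +
      ((allPairs n).filter (fun p => p.1.card % 2 = 1)).card := by
    have h := card_filter_add_card_filter_not (s := allPairs n) (fun p => p.1.card % 2 = 0)
    rw [← h]
    congr 2
    ext p
    simp only [mem_filter]
    constructor
    · rintro ⟨a, b⟩; exact ⟨a, by omega⟩
    · rintro ⟨a, b⟩; exact ⟨a, by omega⟩
  by_cases hc : F0.card ≤ F1.card
  · exact ⟨F1, s1, 1, p1, by omega, b1⟩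
  · exact ⟨F0, s0, 0, p0, by omega, b0⟩

end Pool.Agent.Lib.MP_5e2afd_co
end

section

set_option autoImplicit false
open Finset

namespace Pool.Agent.Lib.MP_5e2afd_co

/-- The set of coordinates equal to `true`. -/
def supp {n : ℕ} (u : Fin n → Bool) : Finset (Fin n) := univ.filter (fun i => u i = true)

/-- The indicator vector. -/
def ind {n : ℕ} (T : Finset (Fin n)) : Fin n → Bool := fun i => decide (i ∈ T)

lemma mem_supp {n : ℕ} (u : Fin n → Bool) (i : Fin n) : i ∈ supp u ↔ u i = true := by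
  unfold supp; simp

lemma supp_ind {n : ℕ} (T : Finset (Fin n)) : supp (ind T) = T := by
  ext i; rw [mem_supp]; unfold ind; simp

lemma ind_supp {n : ℕ} (u : Fin n → Bool) : ind (supp u) = u := by
  funext i
  unfold ind
  by_cases h : u i = true
  · rw [h]; simp [mem_supp, h]
  · have h' : u i = false := by simpa using h
    rw [h']; simp [mem_supp, h']

lemma supp_inj {n : ℕ} {u v : Fin n → Bool} (h : supp u = supp v) : u = v := by
  rw [← ind_supp u, ← ind_supp v, h]

/-- The graph of a family of cube edges. -/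
def graphOf {n : ℕ} (E : Finset (Finset (Fin n) × Fin n)) (hE : ∀ p ∈ E, p.2 ∉ p.1) :
    SimpleGraph (Fin n → Bool) where
  Adj u v := ∃ p ∈ E, (supp u = p.1 ∧ supp v = insert p.2 p.1) ∨
    (supp v = p.1 ∧ supp u = insert p.2 p.1)
  symm := ⟨fun u v h => by
    obtain ⟨p, hp, h⟩ := h
    exact ⟨p, hp, h.symm⟩⟩
  loopless := ⟨fun u h => by
    obtain ⟨p, hp, h⟩ := h
    rcases h with h | h
    · apply hE p hp
      rw [← h.1, h.2]
      exact mem_insert_self _ _
    · apply hE p hp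
      rw [← h.1, h.2]
      exact mem_insert_self _ _⟩

lemma graphOf_le {n : ℕ} (E : Finset (Finset (Fin n) × Fin n)) (hE : ∀ p ∈ E, p.2 ∉ p.1) :
    graphOf E hE ≤ hypercube n := by
  have key : ∀ (u v : Fin n → Bool) (p : Finset (Fin n) × Fin n), p.2 ∉ p.1 → supp u = p.1 →
      supp v = insert p.2 p.1 → (hypercube n).Adj u v := by
    intro u v p hp hu hv
    refine ⟨p.2, ?_, ?_⟩
    · intro h
      have h1 : p.2 ∈ supp v := by rw [hv]; exact mem_insert_self _ _
      rw [mem_supp, ← h, ← mem_supp, hu] at h1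
      exact hp h1
    · intro j hj
      by_contra hne
      apply hj
      have h1 : j ∈ supp u ↔ j ∈ supp v := by
        rw [hu, hv, mem_insert]
        tauto
      rw [mem_supp, mem_supp] at h1
      exact Bool.eq_iff_iff.mpr h1
  intro u v h
  obtain ⟨p, hp, h | h⟩ := h
  · exact key u v p (hE p hp) h.1 h.2
  · exact (key v u p (hE p hp) h.1 h.2).symm

/-- The edge of the cube given by a pair. -/
def edge {n : ℕ} (p : Finset (Fin n) × Fin n) : Sym2 (Fin n → Bool) :=
  s(ind p.1, ind (insert p.2 p.1))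

lemma edge_inj {n : ℕ} {p q : Finset (Fin n) × Fin n} (hp : p.2 ∉ p.1)
    (h : edge p = edge q) : p = q := by
  unfold edge at h
  have hinj : ∀ {A B : Finset (Fin n)}, ind A = ind B → A = B := by
    intro A B h
    rw [← supp_ind A, ← supp_ind B, h]
  rw [Sym2.eq_iff] at h
  rcases h with ⟨h1, h2⟩ | ⟨h1, h2⟩
  · have h1' := hinj h1
    have h2' := hinj h2
    refine Prod.ext h1' ?_
    have h3 : p.2 ∈ insert q.2 q.1 := by rw [← h2']; exact mem_insert_self _ _
    rcases mem_insert.mp h3 with h4 | h4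
    · exact h4
    · rw [← h1'] at h4; exact absurd h4 hp
  · have h1' := hinj h1
    have h2' := hinj h2
    exfalso
    apply hp
    rw [h1']
    apply mem_insert_of_mem
    rw [← h2']
    exact mem_insert_self _ _

lemma card_le_graphOf {n : ℕ} (E : Finset (Finset (Fin n) × Fin n)) (hE : ∀ p ∈ E, p.2 ∉ p.1) :
    E.card ≤ (graphOf E hE).edgeSet.ncard := by
  have h1 : (edge '' (E : Set (Finset (Fin n) × Fin n))).ncard = E.card := by
    rw [Set.InjOn.ncard_image, Set.ncard_coe_finset]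
    intro p hp q hq h
    exact edge_inj (hE p hp) h
  rw [← h1]
  apply Set.ncard_le_ncard _ (Set.toFinite _)
  rintro _ ⟨p, hp, rfl⟩
  unfold edge
  rw [SimpleGraph.mem_edgeSet]
  exact ⟨p, hp, Or.inl ⟨supp_ind _, supp_ind _⟩⟩

lemma hypercube_le_card (n : ℕ) : (hypercube n).edgeSet.ncard ≤ (allPairs n).card := by
  have hsub : (hypercube n).edgeSet ⊆ edge '' (allPairs n : Set (Finset (Fin n) × Fin n)) := by
    intro e
    induction e using Sym2.ind with
    | _ u v =>
      intro h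
      rw [SimpleGraph.mem_edgeSet] at h
      obtain ⟨i, hi, hu⟩ := h
      have key : ∀ u v : Fin n → Bool, u i ≠ v i → (∀ j, u j ≠ v j → j = i) → u i = false →
          s(u, v) ∈ edge '' (allPairs n : Set (Finset (Fin n) × Fin n)) := by
        intro u v hi hu hf
        have hni : i ∉ supp u := by rw [mem_supp, hf]; simp
        refine ⟨(supp u, i), ?_, ?_⟩
        · rw [mem_coe, allPairs, mem_pairs]
          exact ⟨mem_univ _, hni, mem_univ _⟩
        · unfold edge
          simp only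
          rw [ind_supp]
          congr 1
          apply supp_inj
          rw [supp_ind]
          ext j
          rw [mem_insert, mem_supp, mem_supp]
          by_cases hj : j = i
          · subst hj
            have : v j = true := by
              rcases hb : v j with _ | _
              · rw [hf, hb] at hi; exact absurd rfl hi
              · rfl
            simp [this]
          · have : u j = v j := by
              by_contra hne
              exact hj (hu j hne)
            simp [hj, this]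
      rcases hb : u i with _ | _
      · exact key u v hi hu hb
      · have hb' : v i = false := by
          rcases hb'' : v i with _ | _
          · rfl
          · rw [hb, hb''] at hi; exact absurd rfl hi
        rw [Sym2.eq_swap]
        exact key v u (fun h => hi h.symm) (fun j hj => hu j (fun h => hj h.symm)) hb'
  calc (hypercube n).edgeSet.ncard
      ≤ (edge '' (allPairs n : Set (Finset (Fin n) × Fin n))).ncard :=
        Set.ncard_le_ncard hsub (Set.toFinite _)
    _ ≤ (allPairs n : Set (Finset (Fin n) × Fin n)).ncard := Set.ncard_image_le (Set.toFinite _)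
    _ = (allPairs n).card := Set.ncard_coe_finset _

lemma bad_of_cycle {n : ℕ} (E : Finset (Finset (Fin n) × Fin n)) (hE : ∀ p ∈ E, p.2 ∉ p.1)
    (ε : ℕ) (hpar : ∀ p ∈ E, p.1.card % 2 = ε) (c : Fin 10 → (Fin n → Bool))
    (hc : Function.Injective c) (hadj : ∀ k, (graphOf E hE).Adj (c k) (c (k + 1)))
    (h0 : (supp (c 0)).card % 2 = ε) : Bad E := by
  have up : ∀ u v : Fin n → Bool, (graphOf E hE).Adj u v → (supp u).card % 2 = ε →
      (∃ x, (supp u, x) ∈ E ∧ supp v = insert x (supp u)) ∧ (supp v).card % 2 ≠ ε := by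
    intro u v h hu
    obtain ⟨p, hp, h | h⟩ := h
    · have hcard : (supp v).card = (supp u).card + 1 := by
        rw [h.1, h.2, card_insert_of_notMem (hE p hp)]
      refine ⟨⟨p.2, ?_, ?_⟩, by omega⟩
      · rw [h.1]; exact hp
      · rw [h.1]; exact h.2
    · exfalso
      have hcard : (supp u).card = p.1.card + 1 := by
        rw [h.2, card_insert_of_notMem (hE p hp)]
      have := hpar p hp
      omega
  have down : ∀ u v : Fin n → Bool, (graphOf E hE).Adj u v → (supp u).card % 2 ≠ ε →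
      (∃ x, (supp v, x) ∈ E ∧ supp u = insert x (supp v)) ∧ (supp v).card % 2 = ε := by
    intro u v h hu
    obtain ⟨p, hp, h | h⟩ := h
    · exfalso
      apply hu
      rw [h.1]; exact hpar p hp
    · refine ⟨⟨p.2, ?_, ?_⟩, ?_⟩
      · rw [h.1]; exact hp
      · rw [h.1]; exact h.2
      · rw [h.1]; exact hpar p hp
  let a : Fin 5 → Fin 10 := ![0, 2, 4, 6, 8]
  let b : Fin 5 → Fin 10 := ![1, 3, 5, 7, 9]
  have hab : ∀ i, a i + 1 = b i := by decide
  have hba : ∀ i, b i + 1 = a (i + 1) := by decide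
  have e1 : ∀ i, (graphOf E hE).Adj (c (a i)) (c (b i)) := by
    intro i; rw [← hab i]; exact hadj (a i)
  have e2 : ∀ i, (graphOf E hE).Adj (c (b i)) (c (a (i + 1))) := by
    intro i; rw [← hba i]; exact hadj (b i)
  have step : ∀ i, (supp (c (a i))).card % 2 = ε → (supp (c (a (i + 1)))).card % 2 = ε := by
    intro i hi
    exact (down _ _ (e2 i) (up _ _ (e1 i) hi).2).2
  have hq : ∀ i, (supp (c (a i))).card % 2 = ε := by
    have q0 : (supp (c (a 0))).card % 2 = ε := h0
    have q1 : (supp (c (a 1))).card % 2 = ε := step 0 q0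
    have q2 : (supp (c (a 2))).card % 2 = ε := step 1 q1
    have q3 : (supp (c (a 3))).card % 2 = ε := step 2 q2
    have q4 : (supp (c (a 4))).card % 2 = ε := step 3 q3
    intro i
    fin_cases i
    · exact q0
    · exact q1
    · exact q2
    · exact q3
    · exact q4
  have f1 : ∀ i, ∃ x, (supp (c (a i)), x) ∈ E ∧ supp (c (b i)) = insert x (supp (c (a i))) :=
    fun i => (up _ _ (e1 i) (hq i)).1
  have f2 : ∀ i, ∃ y, (supp (c (a (i + 1))), y) ∈ E ∧
      supp (c (b i)) = insert y (supp (c (a (i + 1)))) :=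
    fun i => (down _ _ (e2 i) (up _ _ (e1 i) (hq i)).2).1
  choose x hx hxS using f1
  choose y hy hyS using f2
  have n1 : ∀ i, a i ≠ a (i + 1) := by decide
  have n2 : ∀ i, b i ≠ b (i + 1) := by decide
  refine ⟨fun i => supp (c (a i)), x, y, hx, hy, fun i => ?_, fun i h => ?_, fun i h => ?_⟩
  · rw [← hxS i, ← hyS i]
  · -- `x i = y i` forces two equal lower sets
    have h1 := hE _ (hx i)
    have h2 := hE _ (hy i)
    simp only at h1 h2
    have h3 : insert (x i) (supp (c (a i))) = insert (x i) (supp (c (a (i + 1)))) := by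
      rw [← hxS i, hyS i, h]
    have h4 : supp (c (a i)) = supp (c (a (i + 1))) := by
      rw [← erase_insert h1, h3, h]
      exact erase_insert h2
    exact n1 i (hc (supp_inj h4))
  · have h4 : supp (c (b i)) = supp (c (b (i + 1))) := by
      rw [hyS i, hxS (i + 1), h]
    exact n2 i (hc (supp_inj h4))

end Pool.Agent.Lib.MP_5e2afd_co
end
end
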