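import Mathlib

set_option autoImplicit false

namespace Pool.Agent.Lib.MP_5e2afd_co.Up

open Finset

/-- Tangent line of the logarithm. -/
lemma log_le_tan {x y : ℝ} (hx : 0 < x) (hy : 0 < y) :
    Real.log x ≤ Real.log y + x / y - 1 := by
  have h := Real.log_le_sub_one_of_pos (div_pos hx hy)
  rw [Real.log_div hx.ne' hy.ne'] at h
  linarith

/-- Tangent line of `x log x`. -/
lemma mul_log_ge {x t : ℝ} (hx : 0 ≤ x) (ht : 0 < t) :
    x * Real.log t + x - t ≤ x * Real.log x := by
  rcases hx.eq_or_lt with h | h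
  · subst h
    simp [ht.le]
  · have h1 := log_le_tan ht h
    have h2 : x * Real.log t ≤ x * (Real.log x + t / x - 1) :=
      mul_le_mul_of_nonneg_left h1 hx
    have h3 : x * (Real.log x + t / x - 1) = x * Real.log x + t - x := by
      field_simp
    linarith

lemma log_one_add_sq_le {t : ℝ} (ht : 0 ≤ t) : Real.log (1 + t ^ 2) ≤ t := by
  rw [Real.log_le_iff_le_exp (by positivity)]
  have h := Real.sum_le_exp_of_nonneg ht 4
  have h2 : ∑ i ∈ range 4, t ^ i / (i.factorial : ℝ) = 1 + t + t ^ 2 / 2 + t ^ 3 / 6 := by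
    simp [Finset.sum_range_succ, Nat.factorial]
  rw [h2] at h
  have h3 : 0 ≤ t * ((t - 3 / 2) ^ 2 + 15 / 4) := by positivity
  nlinarith [h3]

/-- Two entries of a distribution that are not both large can be merged. -/
lemma entropy_pair {p q κ : ℝ} (hp : 0 ≤ p) (hq : 0 ≤ q) (hκ : 0 < κ) :
    -(p * Real.log p) - q * Real.log q ≤
      -((p + q) * Real.log (p + q)) + κ + p * q / κ := by
  rcases hp.eq_or_lt with h | hp'
  · subst h
    simp
    linarith
  rcases hq.eq_or_lt with h | hq'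
  · subst h
    simp
    linarith
  obtain ⟨r, hr, hrp⟩ : ∃ r : ℝ, 0 < r ∧ p = r ^ 2 :=
    ⟨Real.sqrt p, Real.sqrt_pos.2 hp', (Real.sq_sqrt hp).symm⟩
  obtain ⟨u, hu, huq⟩ : ∃ u : ℝ, 0 < u ∧ q = u ^ 2 :=
    ⟨Real.sqrt q, Real.sqrt_pos.2 hq', (Real.sq_sqrt hq).symm⟩
  have e1 : p + q = p * (1 + (u / r) ^ 2) := by
    rw [hrp, huq]; field_simp
  have e2 : p + q = q * (1 + (r / u) ^ 2) := by
    rw [hrp, huq]; field_simp; ring
  have l1 : Real.log (p + q) = Real.log p + Real.log (1 + (u / r) ^ 2) := by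
    rw [e1, Real.log_mul hp'.ne' (by positivity)]
  have l2 : Real.log (p + q) = Real.log q + Real.log (1 + (r / u) ^ 2) := by
    rw [e2, Real.log_mul hq'.ne' (by positivity)]
  have b1 : Real.log (1 + (u / r) ^ 2) ≤ u / r := log_one_add_sq_le (by positivity)
  have b2 : Real.log (1 + (r / u) ^ 2) ≤ r / u := log_one_add_sq_le (by positivity)
  have c1 : p * Real.log (1 + (u / r) ^ 2) ≤ r * u := by
    have := mul_le_mul_of_nonneg_left b1 hp
    have e : p * (u / r) = r * u := by rw [hrp]; field_simp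
    linarith
  have c2 : q * Real.log (1 + (r / u) ^ 2) ≤ r * u := by
    have := mul_le_mul_of_nonneg_left b2 hq
    have e : q * (r / u) = r * u := by rw [huq]; field_simp
    linarith
  have d : 2 * (r * u) ≤ κ + p * q / κ := by
    have e : κ + p * q / κ - 2 * (r * u) = (κ - r * u) ^ 2 / κ := by
      rw [hrp, huq]; field_simp; ring
    have : 0 ≤ (κ - r * u) ^ 2 / κ := by positivity
    linarith
  have f : (p + q) * Real.log (p + q)
      = p * Real.log p + q * Real.log q + p * Real.log (1 + (u / r) ^ 2)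
        + q * Real.log (1 + (r / u) ^ 2) := by
    have : (p + q) * Real.log (p + q) = p * Real.log (p + q) + q * Real.log (p + q) := by ring
    rw [this]
    nth_rewrite 1 [l1]
    rw [l2]
    ring
  linarith

section

variable {V A : Type*} [Fintype V] [DecidableEq V] [Fintype A] [DecidableEq A]

lemma sum_rev (s : A → V → V) (D : V → Finset A) (hs : ∀ a v, s a (s a v) = v)
    (hD : ∀ a v, a ∈ D v → a ∈ D (s a v)) (F : V → A → ℝ) :
    ∑ v, ∑ c ∈ D v, F v c = ∑ v, ∑ c ∈ D v, F (s c v) c := by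
  have hiff : ∀ a v, a ∈ D (s a v) ↔ a ∈ D v := by
    intro a v
    constructor
    · intro h
      have := hD a _ h
      rwa [hs] at this
    · exact hD a v
  have e : ∀ G : V → A → ℝ, ∑ v, ∑ c ∈ D v, G v c
      = ∑ c : A, ∑ v, if c ∈ D v then G v c else 0 := by
    intro G
    rw [Finset.sum_comm]
    apply Finset.sum_congr rfl
    intro v _
    rw [← Finset.sum_filter]
    apply Finset.sum_congr _ (fun _ _ => rfl)
    ext a
    simp
  rw [e, e (fun v c => F (s c v) c)]
  apply Finset.sum_congr rfl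
  intro c _
  let σ : V ≃ V := ⟨s c, s c, hs c, hs c⟩
  rw [← Equiv.sum_comp σ]
  apply Finset.sum_congr rfl
  intro v _
  show (if c ∈ D (s c v) then F (s c v) c else 0) = _
  by_cases h : c ∈ D v
  · rw [if_pos h, if_pos ((hiff c v).2 h)]
  · rw [if_neg h, if_neg (fun h' => h ((hiff c v).1 h'))]

/-- Number of neighbours of `v` in `D` at which the direction `a` is present. -/
def S (s : A → V → V) (D : V → Finset A) (v : V) (a : A) : ℝ :=
  ∑ b ∈ D v, if a ∈ D (s b v) then 1 else 0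

/-- Law of the second direction of the two step walk from `v`. -/
noncomputable def P (s : A → V → V) (D : V → Finset A) (v : V) (a : A) : ℝ :=
  (∑ b ∈ D v, if a ∈ D (s b v) then ((D (s b v)).card : ℝ)⁻¹ else 0) * ((D v).card : ℝ)⁻¹

lemma S_nonneg (s : A → V → V) (D : V → Finset A) (v : V) (a : A) : 0 ≤ S s D v a := by
  unfold S
  apply Finset.sum_nonneg
  intro b _
  split_ifs <;> norm_num

lemma P_nonneg (s : A → V → V) (D : V → Finset A) (v : V) (a : A) : 0 ≤ P s D v a := by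
  unfold P
  apply mul_nonneg _ (by positivity)
  apply Finset.sum_nonneg
  intro b _
  split_ifs <;> positivity

lemma P_sum (s : A → V → V) (D : V → Finset A) (v : V) (f : A → ℝ) :
    ((D v).card : ℝ) * ∑ a, P s D v a * f a
      = ∑ c ∈ D v, ((D (s c v)).card : ℝ)⁻¹ * ∑ a ∈ D (s c v), f a := by
  rcases (D v).eq_empty_or_nonempty with h | h
  · rw [h]; simp
  have hc : ((D v).card : ℝ) ≠ 0 := by
    have := Finset.card_pos.2 h
    positivity
  unfold P
  have e : ∀ a, (∑ b ∈ D v, if a ∈ D (s b v) then ((D (s b v)).card : ℝ)⁻¹ else 0)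
      * ((D v).card : ℝ)⁻¹ * f a
      = ((D v).card : ℝ)⁻¹ * ∑ b ∈ D v, (if a ∈ D (s b v) then
          ((D (s b v)).card : ℝ)⁻¹ * f a else 0) := by
    intro a
    rw [mul_comm (∑ b ∈ D v, _) _, mul_assoc, Finset.sum_mul]
    congr 1
    apply Finset.sum_congr rfl
    intro b _
    split_ifs <;> simp
  simp_rw [e]
  rw [← Finset.mul_sum, ← mul_assoc, mul_inv_cancel₀ hc, one_mul, Finset.sum_comm]
  apply Finset.sum_congr rfl
  intro c _
  rw [← Finset.sum_filter, Finset.mul_sum]
  apply Finset.sum_congr _ (fun _ _ => rfl)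
  ext a
  simp

lemma P_sum_one (s : A → V → V) (D : V → Finset A)
    (hD : ∀ a v, a ∈ D v → a ∈ D (s a v)) (v : V) (hv : (D v).Nonempty) :
    ∑ a, P s D v a = 1 := by
  have h := P_sum s D v (fun _ => 1)
  have hc : ((D v).card : ℝ) ≠ 0 := by
    have := Finset.card_pos.2 hv
    positivity
  have e : ∑ c ∈ D v, ((D (s c v)).card : ℝ)⁻¹ * ∑ a ∈ D (s c v), (1 : ℝ)
      = (D v).card := by
    have : ∀ c ∈ D v, ((D (s c v)).card : ℝ)⁻¹ * ∑ a ∈ D (s c v), (1 : ℝ) = 1 := by
      intro c hcv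
      have h1 : (D (s c v)).Nonempty := ⟨c, hD c v hcv⟩
      have h2 := Finset.card_pos.2 h1
      have h3 : ((D (s c v)).card : ℝ) ≠ 0 := by positivity
      simp [h3]
    rw [Finset.sum_congr rfl this]
    simp
  rw [e] at h
  simp only [mul_one] at h
  have h' : ((D v).card : ℝ) * ∑ a, P s D v a = ((D v).card : ℝ) * 1 := by rw [h, mul_one]
  exact mul_left_cancel₀ hc h'

lemma P_pos (s : A → V → V) (D : V → Finset A)
    (hD : ∀ a v, a ∈ D v → a ∈ D (s a v)) (v : V) (c a : A) (hc : c ∈ D v)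
    (ha : a ∈ D (s c v)) : 0 < P s D v a := by
  unfold P
  have h1 := Finset.card_pos.2 (⟨c, hc⟩ : (D v).Nonempty)
  have h2 := Finset.card_pos.2 (⟨a, ha⟩ : (D (s c v)).Nonempty)
  apply mul_pos _ (by positivity)
  apply Finset.sum_pos'
  · intro b _
    split_ifs <;> positivity
  · exact ⟨c, hc, by rw [if_pos ha]; positivity⟩

lemma P_le (s : A → V → V) (D : V → Finset A)
    (hD : ∀ a v, a ∈ D v → a ∈ D (s a v)) (m : ℝ) (hm : 0 < m)
    (hdeg : ∀ v, (D v).Nonempty → m ≤ (D v).card) (v : V) (a : A) :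
    P s D v a ≤ S s D v a * (m⁻¹ ^ 2) := by
  rcases (D v).eq_empty_or_nonempty with h | h
  · unfold P S
    rw [h]; simp
  have h0 : ((D v).card : ℝ)⁻¹ ≤ m⁻¹ := inv_anti₀ hm (hdeg v h)
  have h1 : (∑ b ∈ D v, if a ∈ D (s b v) then ((D (s b v)).card : ℝ)⁻¹ else 0)
      ≤ S s D v a * m⁻¹ := by
    unfold S
    rw [Finset.sum_mul]
    apply Finset.sum_le_sum
    intro b hb
    split_ifs with hab
    · rw [one_mul]
      exact inv_anti₀ hm (hdeg _ ⟨a, hab⟩)
    · simp
  unfold P
  calc _ ≤ S s D v a * m⁻¹ * m⁻¹ := by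
        apply mul_le_mul h1 h0 (by positivity)
        exact mul_nonneg (S_nonneg _ _ _ _) (by positivity)
    _ = _ := by ring

end

end Pool.Agent.Lib.MP_5e2afd_co.Up
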