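import Mathlib
import Pool.Agent.Lib.MP_5e2afd_co.UpA

set_option autoImplicit false

namespace Pool.Agent.Lib.MP_5e2afd_co.Up

open Finset

section

variable {V A : Type*} [Fintype V] [Fintype A] [DecidableEq A]

lemma alg1 (x y z : ℝ) (hx : x ≠ 0) (hy : y ≠ 0) :
    x⁻¹ * y⁻¹ * (x * y + z) = 1 + x⁻¹ * y⁻¹ * z := by
  field_simp

lemma alg2 (x y z : ℝ) : x * y / z = z⁻¹ * (x * y) := by
  rw [div_eq_inv_mul]

/-- The number of directions common to two sets, as a sum. -/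
lemma common_symm (X Y : Finset A) :
    (∑ a ∈ X, if a ∈ Y then (1 : ℝ) else 0) = ∑ a ∈ Y, if a ∈ X then (1 : ℝ) else 0 := by
  rw [← Finset.sum_filter, ← Finset.sum_filter]
  apply Finset.sum_congr _ (fun _ _ => rfl)
  ext a
  simp [and_comm]

/-- Summing an affine function over the ordered edges. -/
lemma sum_const_add (D : V → Finset A) (K z : ℝ) (X : V → A → ℝ) :
    ∑ v, ∑ c ∈ D v, (K + z * X v c)
      = (∑ v, ((D v).card : ℝ)) * K + z * ∑ v, ∑ c ∈ D v, X v c := by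
  have h : ∀ v, ∑ c ∈ D v, (K + z * X v c)
      = ((D v).card : ℝ) * K + z * ∑ c ∈ D v, X v c := by
    intro v
    rw [Finset.sum_add_distrib, Finset.sum_const, nsmul_eq_mul, Finset.mul_sum]
  rw [Finset.sum_congr rfl (fun v _ => h v), Finset.sum_add_distrib, ← Finset.sum_mul,
    ← Finset.mul_sum]

lemma T_eq [DecidableEq V] (s : A → V → V) (D : V → Finset A) :
    ∑ v, ∑ c ∈ D v, ∑ a ∈ D (s c v), P s D v a
      = ∑ v, ∑ c ∈ D v, (((D v).card : ℝ)⁻¹ * ((D (s c v)).card : ℝ)⁻¹ *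
          ∑ b ∈ D v, ∑ a ∈ D (s c v), if a ∈ D (s b v) then (1 : ℝ) else 0) := by
  apply Finset.sum_congr rfl
  intro v _
  have e1 : ∀ c, ∑ a ∈ D (s c v), P s D v a
      = ∑ b ∈ D v, (((D v).card : ℝ)⁻¹ * ((D (s b v)).card : ℝ)⁻¹ *
          ∑ a ∈ D (s c v), if a ∈ D (s b v) then (1 : ℝ) else 0) := by
    intro c
    unfold P
    simp_rw [Finset.sum_mul, Finset.mul_sum]
    rw [Finset.sum_comm]
    apply Finset.sum_congr rfl
    intro b _
    apply Finset.sum_congr rfl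
    intro a _
    split_ifs
    · ring
    · simp
  simp_rw [e1]
  rw [Finset.sum_comm]
  apply Finset.sum_congr rfl
  intro c _
  rw [Finset.mul_sum]
  apply Finset.sum_congr rfl
  intro b _
  rw [common_symm]

/-- The walk `c, a` from `v` read from both ends. -/
lemma T_le [DecidableEq V] (s : A → V → V) (D : V → Finset A) (hs : ∀ a v, s a (s a v) = v)
    (hD : ∀ a v, a ∈ D v → a ∈ D (s a v)) (m B1 : ℝ) (hm : 0 < m)
    (hdeg : ∀ v, (D v).Nonempty → m ≤ (D v).card)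
    (h1 : (∑ v, ∑ c ∈ D v, ∑ b ∈ D v, ∑ a ∈ D (s c v),
      if a ∈ D (s b v) ∧ b ∈ D (s a (s c v)) then (1 : ℝ) else 0) ≤ B1) :
    ∑ v, ∑ c ∈ D v, ∑ a ∈ D (s c v), P s D v a
      ≤ ((∑ v, ((D v).card : ℝ)) + m⁻¹ ^ 2 * B1) / 2 := by
  rw [T_eq]
  set G : V → A → ℝ := fun v c => ((D v).card : ℝ)⁻¹ * ((D (s c v)).card : ℝ)⁻¹ *
          ∑ b ∈ D v, ∑ a ∈ D (s c v), if a ∈ D (s b v) then (1 : ℝ) else 0 with hG
  have hrev := sum_rev s D hs hD G
  have key : ∀ v, ∀ c ∈ D v, G v c + G (s c v) c ≤ 1 + m⁻¹ ^ 2 *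
      ∑ b ∈ D v, ∑ a ∈ D (s c v),
        (if a ∈ D (s b v) ∧ b ∈ D (s a (s c v)) then (1 : ℝ) else 0) := by
    intro v c hc
    have n1 : (D v).Nonempty := ⟨c, hc⟩
    have n2 : (D (s c v)).Nonempty := ⟨c, hD c v hc⟩
    have p1 := Finset.card_pos.2 n1
    have p2 := Finset.card_pos.2 n2
    have q1 : ((D v).card : ℝ) ≠ 0 := by positivity
    have q2 : ((D (s c v)).card : ℝ) ≠ 0 := by positivity
    have i1 : ((D v).card : ℝ)⁻¹ ≤ m⁻¹ := inv_anti₀ hm (hdeg _ n1)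
    have i2 : ((D (s c v)).card : ℝ)⁻¹ ≤ m⁻¹ := inv_anti₀ hm (hdeg _ n2)
    have e2 : G (s c v) c = ((D v).card : ℝ)⁻¹ * ((D (s c v)).card : ℝ)⁻¹ *
        ∑ b ∈ D v, ∑ a ∈ D (s c v), if b ∈ D (s a (s c v)) then (1 : ℝ) else 0 := by
      simp only [hG]
      rw [hs, Finset.sum_comm]
      ring
    rw [e2]
    simp only [hG]
    rw [← mul_add, ← Finset.sum_add_distrib]
    have e3 : ∑ b ∈ D v, ((∑ a ∈ D (s c v), if a ∈ D (s b v) then (1 : ℝ) else 0)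
        + ∑ a ∈ D (s c v), if b ∈ D (s a (s c v)) then (1 : ℝ) else 0)
        ≤ ∑ b ∈ D v, ∑ a ∈ D (s c v), (1 + if a ∈ D (s b v) ∧ b ∈ D (s a (s c v))
            then (1 : ℝ) else 0) := by
      apply Finset.sum_le_sum
      intro b _
      rw [← Finset.sum_add_distrib]
      apply Finset.sum_le_sum
      intro a _
      by_cases x1 : a ∈ D (s b v) <;> by_cases x2 : b ∈ D (s a (s c v)) <;>
        simp [x1, x2]
    have e4 : ∑ b ∈ D v, ∑ a ∈ D (s c v), (1 + if a ∈ D (s b v) ∧ b ∈ D (s a (s c v))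
            then (1 : ℝ) else 0) = ((D v).card : ℝ) * (D (s c v)).card +
        ∑ b ∈ D v, ∑ a ∈ D (s c v), (if a ∈ D (s b v) ∧ b ∈ D (s a (s c v))
            then (1 : ℝ) else 0) := by
      simp_rw [Finset.sum_add_distrib]
      simp
    set Z : ℝ := ∑ b ∈ D v, ∑ a ∈ D (s c v), (if a ∈ D (s b v) ∧ b ∈ D (s a (s c v))
            then (1 : ℝ) else 0) with hZ
    have hZ0 : 0 ≤ Z := by
      apply Finset.sum_nonneg
      intro b _
      apply Finset.sum_nonneg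
      intro a _
      split_ifs <;> norm_num
    calc _ ≤ ((D v).card : ℝ)⁻¹ * ((D (s c v)).card : ℝ)⁻¹ *
        (((D v).card : ℝ) * (D (s c v)).card + Z) := by
          apply mul_le_mul_of_nonneg_left _ (by positivity)
          linarith
      _ = 1 + ((D v).card : ℝ)⁻¹ * ((D (s c v)).card : ℝ)⁻¹ * Z := alg1 _ _ _ q1 q2
      _ ≤ 1 + m⁻¹ ^ 2 * Z := by
          have : ((D v).card : ℝ)⁻¹ * ((D (s c v)).card : ℝ)⁻¹ ≤ m⁻¹ ^ 2 := by
            rw [pow_two]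
            exact mul_le_mul i1 i2 (by positivity) (by positivity)
          have := mul_le_mul_of_nonneg_right this hZ0
          linarith
  have h2 : ∑ v, ∑ c ∈ D v, (G v c + G (s c v) c) ≤
      ∑ v, ∑ c ∈ D v, (1 + m⁻¹ ^ 2 *
      ∑ b ∈ D v, ∑ a ∈ D (s c v),
        (if a ∈ D (s b v) ∧ b ∈ D (s a (s c v)) then (1 : ℝ) else 0)) :=
    Finset.sum_le_sum (fun v _ => Finset.sum_le_sum (fun c hc => key v c hc))
  have h3 : ∑ v, ∑ c ∈ D v, (G v c + G (s c v) c) = 2 * ∑ v, ∑ c ∈ D v, G v c := by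
    simp_rw [Finset.sum_add_distrib]
    rw [← hrev]
    ring
  have h4 : ∑ v, ∑ c ∈ D v, (1 + m⁻¹ ^ 2 *
      ∑ b ∈ D v, ∑ a ∈ D (s c v),
        (if a ∈ D (s b v) ∧ b ∈ D (s a (s c v)) then (1 : ℝ) else 0))
      = (∑ v, ((D v).card : ℝ)) + m⁻¹ ^ 2 * (∑ v, ∑ c ∈ D v,
      ∑ b ∈ D v, ∑ a ∈ D (s c v),
        (if a ∈ D (s b v) ∧ b ∈ D (s a (s c v)) then (1 : ℝ) else 0)) := by
    rw [sum_const_add, mul_one]
  have h5 : m⁻¹ ^ 2 * (∑ v, ∑ c ∈ D v,
      ∑ b ∈ D v, ∑ a ∈ D (s c v),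
        (if a ∈ D (s b v) ∧ b ∈ D (s a (s c v)) then (1 : ℝ) else 0)) ≤ m⁻¹ ^ 2 * B1 :=
    mul_le_mul_of_nonneg_left h1 (by positivity)
  linarith

/-- First part of the entropy estimate. -/
lemma part_one [DecidableEq V] (s : A → V → V) (D : V → Finset A)
    (hD : ∀ a v, a ∈ D v → a ∈ D (s a v)) (y : ℝ) (hy : 0 < y)
    (hT : ∑ v, ∑ c ∈ D v, ∑ a ∈ D (s c v), P s D v a
      ≤ (∑ v, ((D v).card : ℝ)) * y) :
    ∑ v, ∑ c ∈ D v, ((D (s c v)).card : ℝ)⁻¹ *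
      ∑ a ∈ D (s c v), Real.log (P s D v a * (D (s c v)).card)
      ≤ (∑ v, ((D v).card : ℝ)) * Real.log y := by
  have key : ∀ v, ∀ c ∈ D v, ((D (s c v)).card : ℝ)⁻¹ *
      ∑ a ∈ D (s c v), Real.log (P s D v a * (D (s c v)).card)
      ≤ (Real.log y - 1) + y⁻¹ * ∑ a ∈ D (s c v), P s D v a := by
    intro v c hc
    have n2 : (D (s c v)).Nonempty := ⟨c, hD c v hc⟩
    have p2 := Finset.card_pos.2 n2
    have q2 : (0 : ℝ) < ((D (s c v)).card : ℝ) := by positivity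
    have h1 : ∑ a ∈ D (s c v), Real.log (P s D v a * (D (s c v)).card)
        ≤ ∑ a ∈ D (s c v), ((Real.log y - 1) + y⁻¹ * (P s D v a * (D (s c v)).card)) := by
      apply Finset.sum_le_sum
      intro a ha
      have hp := P_pos s D hD v c a hc ha
      have := log_le_tan (mul_pos hp q2) hy
      have e : P s D v a * (D (s c v)).card / y = y⁻¹ * (P s D v a * (D (s c v)).card) :=
        alg2 _ _ _
      linarith
    have h2 : ∑ a ∈ D (s c v), ((Real.log y - 1) + y⁻¹ * (P s D v a * (D (s c v)).card))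
        = ((D (s c v)).card : ℝ) *
          ((Real.log y - 1) + y⁻¹ * ∑ a ∈ D (s c v), P s D v a) := by
      rw [Finset.sum_add_distrib, ← Finset.mul_sum, ← Finset.sum_mul]
      simp
      ring
    calc _ ≤ ((D (s c v)).card : ℝ)⁻¹ * (((D (s c v)).card : ℝ) *
          ((Real.log y - 1) + y⁻¹ * ∑ a ∈ D (s c v), P s D v a)) := by
          apply mul_le_mul_of_nonneg_left _ (by positivity)
          linarith
      _ = _ := inv_mul_cancel_left₀ q2.ne' _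
  have h2 : ∑ v, ∑ c ∈ D v, ((D (s c v)).card : ℝ)⁻¹ *
      ∑ a ∈ D (s c v), Real.log (P s D v a * (D (s c v)).card)
      ≤ ∑ v, ∑ c ∈ D v, ((Real.log y - 1) + y⁻¹ * ∑ a ∈ D (s c v), P s D v a) :=
    Finset.sum_le_sum (fun v _ => Finset.sum_le_sum (fun c hc => key v c hc))
  have h3 : ∑ v, ∑ c ∈ D v, ((Real.log y - 1) + y⁻¹ * ∑ a ∈ D (s c v), P s D v a)
      = (∑ v, ((D v).card : ℝ)) * (Real.log y - 1) + y⁻¹ *
        ∑ v, ∑ c ∈ D v, ∑ a ∈ D (s c v), P s D v a := by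
    exact sum_const_add D _ _ _
  have h4 : y⁻¹ * ∑ v, ∑ c ∈ D v, ∑ a ∈ D (s c v), P s D v a
      ≤ y⁻¹ * ((∑ v, ((D v).card : ℝ)) * y) :=
    mul_le_mul_of_nonneg_left hT (by positivity)
  have h5 : y⁻¹ * ((∑ v, ((D v).card : ℝ)) * y) = ∑ v, ((D v).card : ℝ) := by
    rw [mul_comm, mul_assoc, mul_inv_cancel₀ hy.ne', mul_one]
  linarith

end

end Pool.Agent.Lib.MP_5e2afd_co.Up
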