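import Mathlib
import Pool.Agent.Lib.MP_5e2afd_co.UpB

set_option autoImplicit false

namespace Pool.Agent.Lib.MP_5e2afd_co.Up

open Finset

section

variable {V A : Type*} [Fintype V] [Fintype A] [DecidableEq A]

/-- The entropy of the sum of two distributions is at most that of twice the uniform one. -/
lemma entropy_le (f : A → ℝ) (hf : ∀ a, 0 ≤ f a) (h2 : ∑ a, f a = 2)
    (hA : 0 < Fintype.card A) :
    ∑ a, -(f a * Real.log (f a)) ≤ 2 * Real.log ((Fintype.card A : ℝ) / 2) := by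
  have hn : (0 : ℝ) < Fintype.card A := by exact_mod_cast hA
  set t : ℝ := 2 / (Fintype.card A : ℝ) with ht
  have ht0 : 0 < t := by positivity
  have h : ∑ a, -(f a * Real.log (f a)) ≤ ∑ a, (t - f a * Real.log t - f a) := by
    apply Finset.sum_le_sum
    intro a _
    have := mul_log_ge (hf a) ht0
    linarith
  have e : ∑ a, (t - f a * Real.log t - f a) = -(2 * Real.log t) := by
    rw [Finset.sum_sub_distrib, Finset.sum_sub_distrib, ← Finset.sum_mul, h2]
    simp [ht]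
    field_simp
    ring
  have e2 : Real.log ((Fintype.card A : ℝ) / 2) = - Real.log t := by
    rw [ht, ← Real.log_inv, inv_div]
  rw [e2]
  linarith

/-- Second part of the entropy estimate. -/
lemma part_two [DecidableEq V] (s : A → V → V) (D : V → Finset A)
    (hs : ∀ a v, s a (s a v) = v)
    (hD : ∀ a v, a ∈ D v → a ∈ D (s a v)) (m B2 κ : ℝ) (hm : 0 < m) (hκ : 0 < κ)
    (hdeg : ∀ v, (D v).Nonempty → m ≤ (D v).card)
    (h2 : ∑ v, ∑ c ∈ D v, ∑ a, S s D v a * S s D (s c v) a ≤ B2) :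
    ∑ v, ((D v).card : ℝ) * ∑ a, -(P s D v a * Real.log (P s D v a))
      ≤ (∑ v, ((D v).card : ℝ)) * (Real.log ((Fintype.card A : ℝ) / 2)
          + κ * Fintype.card A / 2) + κ⁻¹ * (m⁻¹ ^ 4 * B2) / 2 := by
  have pk : 0 ≤ κ⁻¹ := inv_nonneg.2 hκ.le
  have pm2 : 0 ≤ m⁻¹ ^ 2 := pow_nonneg (inv_nonneg.2 hm.le) 2
  have pm4 : 0 ≤ m⁻¹ ^ 4 := pow_nonneg (inv_nonneg.2 hm.le) 4
  set H : V → A → ℝ := fun v _ => ∑ a, -(P s D v a * Real.log (P s D v a)) with hH
  have hrev := sum_rev s D hs hD H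
  have e1 : ∑ v, ((D v).card : ℝ) * ∑ a, -(P s D v a * Real.log (P s D v a))
      = ∑ v, ∑ c ∈ D v, H v c := by
    apply Finset.sum_congr rfl
    intro v _
    simp [hH]
  have key : ∀ v, ∀ c ∈ D v, H v c + H (s c v) c ≤
      (2 * Real.log ((Fintype.card A : ℝ) / 2) + κ * Fintype.card A) +
        κ⁻¹ * (m⁻¹ ^ 4 * ∑ a, S s D v a * S s D (s c v) a) := by
    intro v c hc
    have n1 : (D v).Nonempty := ⟨c, hc⟩
    have n2 : (D (s c v)).Nonempty := ⟨c, hD c v hc⟩
    have hA : 0 < Fintype.card A := Fintype.card_pos_iff.2 ⟨c⟩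
    have f1 := entropy_le (fun a => P s D v a + P s D (s c v) a)
      (fun a => add_nonneg (P_nonneg _ _ _ _) (P_nonneg _ _ _ _))
      (by
        rw [Finset.sum_add_distrib, P_sum_one s D hD v n1, P_sum_one s D hD _ n2]
        norm_num) hA
    have f2 : H v c + H (s c v) c ≤ ∑ a, (-((P s D v a + P s D (s c v) a) *
        Real.log (P s D v a + P s D (s c v) a)) + κ +
        κ⁻¹ * (m⁻¹ ^ 4 * (S s D v a * S s D (s c v) a))) := by
      simp only [hH]
      rw [← Finset.sum_add_distrib]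
      apply Finset.sum_le_sum
      intro a _
      have g1 := entropy_pair (P_nonneg s D v a) (P_nonneg s D (s c v) a) hκ
      have g2 : P s D v a * P s D (s c v) a ≤ m⁻¹ ^ 4 * (S s D v a * S s D (s c v) a) := by
        have := mul_le_mul (P_le s D hD m hm hdeg v a) (P_le s D hD m hm hdeg (s c v) a)
          (P_nonneg _ _ _ _) (mul_nonneg (S_nonneg _ _ _ _) pm2)
        calc _ ≤ _ := this
          _ = _ := by ring
      have g3 : P s D v a * P s D (s c v) a / κ ≤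
          κ⁻¹ * (m⁻¹ ^ 4 * (S s D v a * S s D (s c v) a)) := by
        rw [div_eq_inv_mul]
        exact mul_le_mul_of_nonneg_left g2 pk
      linarith
    have f3 : ∑ a, (-((P s D v a + P s D (s c v) a) *
        Real.log (P s D v a + P s D (s c v) a)) + κ +
        κ⁻¹ * (m⁻¹ ^ 4 * (S s D v a * S s D (s c v) a)))
        = (∑ a, -((P s D v a + P s D (s c v) a) *
        Real.log (P s D v a + P s D (s c v) a))) + κ * Fintype.card A +
        κ⁻¹ * (m⁻¹ ^ 4 * ∑ a, S s D v a * S s D (s c v) a) := by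
      rw [Finset.sum_add_distrib, Finset.sum_add_distrib, Finset.mul_sum, Finset.mul_sum]
      simp
      ring
    linarith
  have h3 : ∑ v, ∑ c ∈ D v, (H v c + H (s c v) c) ≤ ∑ v, ∑ c ∈ D v,
      ((2 * Real.log ((Fintype.card A : ℝ) / 2) + κ * Fintype.card A) +
        κ⁻¹ * (m⁻¹ ^ 4 * ∑ a, S s D v a * S s D (s c v) a)) :=
    Finset.sum_le_sum (fun v _ => Finset.sum_le_sum (fun c hc => key v c hc))
  have h4 : ∑ v, ∑ c ∈ D v, (H v c + H (s c v) c) = 2 * ∑ v, ∑ c ∈ D v, H v c := by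
    simp_rw [Finset.sum_add_distrib]
    rw [← hrev]
    ring
  have h5 : ∑ v, ∑ c ∈ D v,
      ((2 * Real.log ((Fintype.card A : ℝ) / 2) + κ * Fintype.card A) +
        κ⁻¹ * (m⁻¹ ^ 4 * ∑ a, S s D v a * S s D (s c v) a))
      = (∑ v, ((D v).card : ℝ)) * (2 * Real.log ((Fintype.card A : ℝ) / 2)
        + κ * Fintype.card A) + κ⁻¹ * (m⁻¹ ^ 4 * ∑ v, ∑ c ∈ D v,
          ∑ a, S s D v a * S s D (s c v) a) := by
    have h := sum_const_add D (2 * Real.log ((Fintype.card A : ℝ) / 2) + κ * Fintype.card A)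
      (κ⁻¹ * m⁻¹ ^ 4) (fun v c => ∑ a, S s D v a * S s D (s c v) a)
    simp only [mul_assoc] at h ⊢
    exact h
  have h6 : κ⁻¹ * (m⁻¹ ^ 4 * ∑ v, ∑ c ∈ D v, ∑ a, S s D v a * S s D (s c v) a)
      ≤ κ⁻¹ * (m⁻¹ ^ 4 * B2) := by
    apply mul_le_mul_of_nonneg_left _ pk
    exact mul_le_mul_of_nonneg_left h2 pm4
  rw [e1]
  linarith

/-- Third part: convexity of `x log x`. -/
lemma part_three [DecidableEq V] (s : A → V → V) (D : V → Finset A)
    (hs : ∀ a v, s a (s a v) = v)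
    (hD : ∀ a v, a ∈ D v → a ∈ D (s a v)) (hN : 0 < ∑ v, ((D v).card : ℝ)) :
    (∑ v, ((D v).card : ℝ)) * Real.log ((∑ v, ((D v).card : ℝ)) / Fintype.card V)
      ≤ ∑ v, ∑ c ∈ D v, Real.log ((D (s c v)).card : ℝ) := by
  have hrev := sum_rev s D hs hD (fun v _ => Real.log ((D v).card : ℝ))
  rw [← hrev]
  have hV : (0 : ℝ) < Fintype.card V := by
    have : Nonempty V := by
      by_contra hne
      rw [not_nonempty_iff] at hne
      simp at hN
    exact_mod_cast Fintype.card_pos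
  set N : ℝ := ∑ v, ((D v).card : ℝ) with hNdef
  have ht : 0 < N / Fintype.card V := div_pos hN hV
  have h : ∑ v, (((D v).card : ℝ) * Real.log (N / Fintype.card V) + (D v).card
      - N / Fintype.card V) ≤ ∑ v, ∑ c ∈ D v, Real.log ((D v).card : ℝ) := by
    apply Finset.sum_le_sum
    intro v _
    have := mul_log_ge (x := ((D v).card : ℝ)) (Nat.cast_nonneg _) ht
    simpa using this
  have e : ∑ v, (((D v).card : ℝ) * Real.log (N / Fintype.card V) + (D v).card
      - N / Fintype.card V) = N * Real.log (N / Fintype.card V) := by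
    rw [Finset.sum_sub_distrib, Finset.sum_add_distrib, ← Finset.sum_mul, ← hNdef,
      Finset.sum_const, Finset.card_univ, nsmul_eq_mul, mul_div_cancel₀ _ hV.ne']
    ring
  linarith

lemma pos1 {m B1 N : ℝ} (hm : 0 < m) (hB1 : 0 ≤ B1) (hN : 0 < N) :
    0 < (1 + m⁻¹ ^ 2 * B1 / N) / 2 := by
  positivity

lemma alg3 (x z : ℝ) (hx : x ≠ 0) : (x + z) / 2 = x * ((1 + z / x) / 2) := by
  field_simp

/-- The entropy inequality. -/
theorem entropy_bound [DecidableEq V] (s : A → V → V) (D : V → Finset A)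
    (hs : ∀ a v, s a (s a v) = v)
    (hD : ∀ a v, a ∈ D v → a ∈ D (s a v)) (m B1 B2 κ : ℝ) (hm : 0 < m) (hκ : 0 < κ)
    (hB1 : 0 ≤ B1)
    (hdeg : ∀ v, (D v).Nonempty → m ≤ (D v).card)
    (h1 : (∑ v, ∑ c ∈ D v, ∑ b ∈ D v, ∑ a ∈ D (s c v),
      if a ∈ D (s b v) ∧ b ∈ D (s a (s c v)) then (1 : ℝ) else 0) ≤ B1)
    (h2 : ∑ v, ∑ c ∈ D v, ∑ a, S s D v a * S s D (s c v) a ≤ B2)
    (hN : 0 < ∑ v, ((D v).card : ℝ)) :
    (∑ v, ((D v).card : ℝ)) * Real.log ((∑ v, ((D v).card : ℝ)) / Fintype.card V)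
      ≤ (∑ v, ((D v).card : ℝ)) *
        (Real.log ((1 + m⁻¹ ^ 2 * B1 / (∑ v, ((D v).card : ℝ))) / 2)
          + Real.log ((Fintype.card A : ℝ) / 2) + κ * Fintype.card A / 2)
        + κ⁻¹ * (m⁻¹ ^ 4 * B2) / 2 := by
  have a3 := part_three s D hs hD hN
  have a2 := part_two s D hs hD m B2 κ hm hκ hdeg h2
  have hT := T_le s D hs hD m B1 hm hdeg h1
  set N : ℝ := ∑ v, ((D v).card : ℝ) with hNdef
  have hy : 0 < (1 + m⁻¹ ^ 2 * B1 / N) / 2 := pos1 hm hB1 hN
  have a1 := part_one s D hD _ hy (by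
    rw [← hNdef]
    have e : (N + m⁻¹ ^ 2 * B1) / 2 = N * ((1 + m⁻¹ ^ 2 * B1 / N) / 2) :=
      alg3 _ _ hN.ne'
    rw [← e]
    exact hT)
  rw [← hNdef] at a1
  have key : ∑ v, ∑ c ∈ D v, Real.log ((D (s c v)).card : ℝ)
      = ∑ v, ∑ c ∈ D v, ((D (s c v)).card : ℝ)⁻¹ *
          ∑ a ∈ D (s c v), Real.log (P s D v a * (D (s c v)).card)
        + ∑ v, ((D v).card : ℝ) * ∑ a, -(P s D v a * Real.log (P s D v a)) := by
    have e1 : ∑ v, ((D v).card : ℝ) * ∑ a, -(P s D v a * Real.log (P s D v a))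
        = ∑ v, ∑ c ∈ D v, -(((D (s c v)).card : ℝ)⁻¹ *
          ∑ a ∈ D (s c v), Real.log (P s D v a)) := by
      apply Finset.sum_congr rfl
      intro v _
      have := P_sum s D v (fun a => Real.log (P s D v a))
      rw [Finset.sum_neg_distrib, Finset.sum_neg_distrib, ← this]
      ring
    rw [e1, ← Finset.sum_add_distrib]
    apply Finset.sum_congr rfl
    intro v _
    rw [← Finset.sum_add_distrib]
    apply Finset.sum_congr rfl
    intro c hc
    have n2 : (D (s c v)).Nonempty := ⟨c, hD c v hc⟩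
    have q2 : (0 : ℝ) < ((D (s c v)).card : ℝ) := Nat.cast_pos.2 (Finset.card_pos.2 n2)
    have e2 : ∑ a ∈ D (s c v), Real.log (P s D v a * (D (s c v)).card)
        = ∑ a ∈ D (s c v), Real.log (P s D v a) +
          ((D (s c v)).card : ℝ) * Real.log ((D (s c v)).card : ℝ) := by
      have : ∀ a ∈ D (s c v), Real.log (P s D v a * (D (s c v)).card)
          = Real.log (P s D v a) + Real.log ((D (s c v)).card : ℝ) := by
        intro a ha
        rw [Real.log_mul (P_pos s D hD v c a hc ha).ne' q2.ne']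
      rw [Finset.sum_congr rfl this, Finset.sum_add_distrib]
      simp
    rw [e2, mul_add, ← mul_assoc, inv_mul_cancel₀ q2.ne']
    ring
  have : N * (Real.log ((1 + m⁻¹ ^ 2 * B1 / N) / 2)
          + Real.log ((Fintype.card A : ℝ) / 2) + κ * Fintype.card A / 2)
      = N * Real.log ((1 + m⁻¹ ^ 2 * B1 / N) / 2)
        + N * (Real.log ((Fintype.card A : ℝ) / 2) + κ * Fintype.card A / 2) := by ring
  linarith

end

end Pool.Agent.Lib.MP_5e2afd_co.Up
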