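import Mathlib
import Pool.Agent.Lib.MP_5e2afd_co.Cube

set_option autoImplicit false

namespace Pool.Agent.Lib.MP_5e2afd_co.Up

open Finset

variable {n : ℕ}

/-- Flip one coordinate. -/
def fl (a : Fin n) (v : Fin n → Bool) : Fin n → Bool := Function.update v a (!v a)

lemma fl_apply (a : Fin n) (v : Fin n → Bool) (i : Fin n) :
    fl a v i = if i = a then !v i else v i := by
  unfold fl
  by_cases h : i = a
  · subst h; simp
  · simp [h]

lemma fl_fl (a : Fin n) (v : Fin n → Bool) : fl a (fl a v) = v := by
  funext i
  simp only [fl_apply]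
  split_ifs <;> simp

lemma fl_comm (a b : Fin n) (v : Fin n → Bool) : fl a (fl b v) = fl b (fl a v) := by
  funext i
  simp only [fl_apply]
  split_ifs <;> simp

/-- A closed walk through ten different vertices is a 10-cycle. -/
lemma not_free {V : Type*} (G : SimpleGraph V) (f : Fin 10 → V) (hinj : Function.Injective f)
    (hadj : ∀ k, G.Adj (f k) (f (k + 1))) : ¬ (SimpleGraph.cycleGraph 10).Free G := by
  intro hfree
  apply hfree
  refine ⟨⟨⟨f, ?_⟩, hinj⟩⟩
  intro k l hkl
  have h : k - l = 1 ∨ l - k = 1 := hkl
  rcases h with h | h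
  · have e : k = l + 1 := by rw [← h]; abel
    rw [e]
    exact (hadj l).symm
  · have e : l = k + 1 := by rw [← h]; abel
    rw [e]
    exact hadj k

/-- The pattern `a b c d a`: two different `a` would give a 10-cycle. -/
lemma no_two_three (G : SimpleGraph (Fin n → Bool))
    (hfree : (SimpleGraph.cycleGraph 10).Free G)
    (x : Fin n → Bool) (a e b c d : Fin n) (hae : a ≠ e) (hab : a ≠ b) (hac : a ≠ c)
    (had : a ≠ d) (heb : e ≠ b) (hec : e ≠ c) (hed : e ≠ d) (hbc : b ≠ c) (hbd : b ≠ d)
    (hcd : c ≠ d)
    (h1 : G.Adj x (fl a x)) (h2 : G.Adj (fl a x) (fl b (fl a x)))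
    (h3 : G.Adj (fl b (fl a x)) (fl c (fl b (fl a x))))
    (h4 : G.Adj (fl c (fl b (fl a x))) (fl d (fl c (fl b (fl a x)))))
    (h5 : G.Adj (fl d (fl c (fl b (fl a x)))) (fl d (fl c (fl b x))))
    (k1 : G.Adj x (fl e x)) (k2 : G.Adj (fl e x) (fl b (fl e x)))
    (k3 : G.Adj (fl b (fl e x)) (fl c (fl b (fl e x))))
    (k4 : G.Adj (fl c (fl b (fl e x))) (fl d (fl c (fl b (fl e x)))))
    (k5 : G.Adj (fl d (fl c (fl b (fl e x)))) (fl d (fl c (fl b x)))) : False := by
  let f : Fin 10 → (Fin n → Bool) := ![x, fl a x, fl b (fl a x), fl c (fl b (fl a x)),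
    fl d (fl c (fl b (fl a x))), fl d (fl c (fl b x)), fl d (fl c (fl b (fl e x))),
    fl c (fl b (fl e x)), fl b (fl e x), fl e x]
  refine not_free G f ?_ ?_ hfree
  · let code : (Fin n → Bool) → (Bool × Bool × Bool × Bool × Bool) := fun u =>
      (xor (u a) (x a), xor (u e) (x e), xor (u b) (x b), xor (u c) (x c), xor (u d) (x d))
    apply Function.Injective.of_comp (f := code)
    have hcode : code ∘ f = ![(false, false, false, false, false),
        (true, false, false, false, false), (true, false, true, false, false),
        (true, false, true, true, false), (true, false, true, true, true),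
        (false, false, true, true, true), (false, true, true, true, true),
        (false, true, true, true, false), (false, true, true, false, false),
        (false, true, false, false, false)] := by
      funext k
      fin_cases k <;>
        simp [code, f, fl_apply, hae, hab, hac, had, heb, hec, hed, hbc, hbd, hcd,
          hae.symm, hab.symm, hac.symm, had.symm, heb.symm, hec.symm, hed.symm, hbc.symm,
          hbd.symm, hcd.symm]
    rw [hcode]
    decide
  · intro k
    fin_cases k
    · exact h1
    · exact h2
    · exact h3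
    · exact h4
    · exact h5
    · exact k5.symm
    · exact k4.symm
    · exact k3.symm
    · exact k2.symm
    · exact k1.symm

end Pool.Agent.Lib.MP_5e2afd_co.Up
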