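import Mathlib
import Pool.Agent.Lib.MP_5e2afd_co.UpD

set_option autoImplicit false

namespace Pool.Agent.Lib.MP_5e2afd_co.Up

open Finset

variable {n : ℕ}

/-- Two pairs of directions in general position with the pattern `a b c a b` give a 10-cycle. -/
lemma no_two_pairs (G : SimpleGraph (Fin n → Bool))
    (hfree : (SimpleGraph.cycleGraph 10).Free G)
    (x : Fin n → Bool) (c a b e h : Fin n) (hae : a ≠ e) (hbh : b ≠ h) (hab : a ≠ b)
    (heh : e ≠ h) (hac : a ≠ c) (hbc : b ≠ c) (hec : e ≠ c) (hhc : h ≠ c)
    (hne : ¬ (a = h ∧ e = b))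
    (h1 : G.Adj x (fl a x)) (h2 : G.Adj (fl a x) (fl b (fl a x)))
    (h3 : G.Adj (fl b (fl a x)) (fl c (fl b (fl a x))))
    (h4 : G.Adj (fl c (fl b (fl a x))) (fl c (fl b x)))
    (h5 : G.Adj (fl c (fl b x)) (fl c x))
    (k1 : G.Adj x (fl e x)) (k2 : G.Adj (fl e x) (fl h (fl e x)))
    (k3 : G.Adj (fl h (fl e x)) (fl c (fl h (fl e x))))
    (k4 : G.Adj (fl c (fl h (fl e x))) (fl c (fl h x)))
    (k5 : G.Adj (fl c (fl h x)) (fl c x)) : False := by
  let f : Fin 10 → (Fin n → Bool) := ![x, fl a x, fl b (fl a x), fl c (fl b (fl a x)),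
    fl c (fl b x), fl c x, fl c (fl h x), fl c (fl h (fl e x)), fl h (fl e x), fl e x]
  refine not_free G f ?_ ?_ hfree
  · by_cases g1 : a = h
    · subst g1
      have heb : e ≠ b := fun hh => hne ⟨rfl, hh⟩
      let code : (Fin n → Bool) → (Bool × Bool × Bool × Bool) := fun u =>
        (xor (u a) (x a), xor (u e) (x e), xor (u b) (x b), xor (u c) (x c))
      apply Function.Injective.of_comp (f := code)
      have hcode : code ∘ f = ![(false, false, false, false), (true, false, false, false),
          (true, false, true, false), (true, false, true, true), (false, false, true, true),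
          (false, false, false, true), (true, false, false, true), (true, true, false, true),
          (true, true, false, false), (false, true, false, false)] := by
        funext k
        fin_cases k <;>
          simp [code, f, fl_apply, hae, hab, hac, heb, hec, hbc,
            hae.symm, hab.symm, hac.symm, heb.symm, hec.symm, hbc.symm]
      rw [hcode]
      decide
    · by_cases g2 : e = b
      · subst g2
        have hah : a ≠ h := g1
        let code : (Fin n → Bool) → (Bool × Bool × Bool × Bool) := fun u =>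
          (xor (u a) (x a), xor (u e) (x e), xor (u h) (x h), xor (u c) (x c))
        apply Function.Injective.of_comp (f := code)
        have hcode : code ∘ f = ![(false, false, false, false), (true, false, false, false),
            (true, true, false, false), (true, true, false, true), (false, true, false, true),
            (false, false, false, true), (false, false, true, true), (false, true, true, true),
            (false, true, true, false), (false, true, false, false)] := by
          funext k
          fin_cases k <;>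
            simp [code, f, fl_apply, hae, hac, hec, hah, heh, hhc,
              hae.symm, hac.symm, hec.symm, hah.symm, heh.symm, hhc.symm]
        rw [hcode]
        decide
      · have hah : a ≠ h := g1
        have heb : e ≠ b := g2
        let code : (Fin n → Bool) → (Bool × Bool × Bool × Bool × Bool) := fun u =>
          (xor (u a) (x a), xor (u b) (x b), xor (u e) (x e), xor (u h) (x h),
            xor (u c) (x c))
        apply Function.Injective.of_comp (f := code)
        have hcode : code ∘ f = ![(false, false, false, false, false),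
            (true, false, false, false, false), (true, true, false, false, false),
            (true, true, false, false, true), (false, true, false, false, true),
            (false, false, false, false, true), (false, false, false, true, true),
            (false, false, true, true, true), (false, false, true, true, false),
            (false, false, true, false, false)] := by
          funext k
          fin_cases k <;>
            simp [code, f, fl_apply, hae, hac, hec, hah, heh, hhc, hab, hbc, heb, hbh,
              hae.symm, hac.symm, hec.symm, hah.symm, heh.symm, hhc.symm, hab.symm,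
              hbc.symm, heb.symm, hbh.symm]
        rw [hcode]
        decide
  · intro k
    fin_cases k
    · exact h1
    · exact h2
    · exact h3
    · exact h4
    · exact h5
    · exact k5.symm
    · exact k4.symm
    · exact k3.symm
    · exact k2.symm
    · exact k1.symm

/-- The directions of the edges of `G` at `v`. -/
noncomputable def dirs (G : SimpleGraph (Fin n → Bool)) (v : Fin n → Bool) : Finset (Fin n) := by
  classical exact Finset.univ.filter (fun a => G.Adj v (fl a v))

lemma mem_dirs (G : SimpleGraph (Fin n → Bool)) (v : Fin n → Bool) (a : Fin n) :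
    a ∈ dirs G v ↔ G.Adj v (fl a v) := by
  classical
  unfold dirs
  simp

lemma dirs_symm (G : SimpleGraph (Fin n → Bool)) (a : Fin n) (v : Fin n → Bool)
    (h : a ∈ dirs G v) : a ∈ dirs G (fl a v) := by
  rw [mem_dirs] at h ⊢
  rw [fl_fl]
  exact h.symm

/-- The walk `a b c d a` seen from its third vertex. -/
def Q3 (G : SimpleGraph (Fin n → Bool)) (a b c d : Fin n) (v : Fin n → Bool) : Prop :=
  c ∈ dirs G v ∧ b ∈ dirs G v ∧ a ∈ dirs G (fl b v) ∧ d ∈ dirs G (fl c v) ∧
    a ∈ dirs G (fl d (fl c v))

/-- The walk `a b c a b` seen from its third vertex. -/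
def Q2 (G : SimpleGraph (Fin n → Bool)) (a b c : Fin n) (v : Fin n → Bool) : Prop :=
  c ∈ dirs G v ∧ b ∈ dirs G v ∧ a ∈ dirs G (fl c v) ∧ a ∈ dirs G (fl b v) ∧
    b ∈ dirs G (fl a (fl c v))

lemma Q3_path (G : SimpleGraph (Fin n → Bool)) (a b c d : Fin n) (x : Fin n → Bool)
    (h : Q3 G a b c d (fl b (fl a x))) :
    G.Adj x (fl a x) ∧ G.Adj (fl a x) (fl b (fl a x)) ∧
    G.Adj (fl b (fl a x)) (fl c (fl b (fl a x))) ∧
    G.Adj (fl c (fl b (fl a x))) (fl d (fl c (fl b (fl a x)))) ∧
    G.Adj (fl d (fl c (fl b (fl a x)))) (fl d (fl c (fl b x))) := by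
  obtain ⟨h1, h2, h3, h4, h5⟩ := h
  rw [mem_dirs] at h1 h2 h3 h4 h5
  rw [fl_fl] at h2 h3
  rw [fl_fl] at h3
  refine ⟨h3.symm, h2.symm, h1, h4, ?_⟩
  have e : fl a (fl d (fl c (fl b (fl a x)))) = fl d (fl c (fl b x)) := by
    rw [fl_comm a d, fl_comm a c, fl_comm a b, fl_fl]
  rw [e] at h5
  exact h5

lemma Q2_path (G : SimpleGraph (Fin n → Bool)) (a b c : Fin n) (x : Fin n → Bool)
    (h : Q2 G a b c (fl b (fl a x))) :
    G.Adj x (fl a x) ∧ G.Adj (fl a x) (fl b (fl a x)) ∧
    G.Adj (fl b (fl a x)) (fl c (fl b (fl a x))) ∧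
    G.Adj (fl c (fl b (fl a x))) (fl c (fl b x)) ∧
    G.Adj (fl c (fl b x)) (fl c x) := by
  obtain ⟨h1, h2, h3, h4, h5⟩ := h
  rw [mem_dirs] at h1 h2 h3 h4 h5
  rw [fl_fl] at h2 h4
  rw [fl_fl] at h4
  have e : fl a (fl c (fl b (fl a x))) = fl c (fl b x) := by
    rw [fl_comm a c, fl_comm a b, fl_fl]
  have e2 : fl b (fl c (fl b x)) = fl c x := by
    rw [fl_comm b c, fl_fl]
  rw [e] at h3 h5
  rw [e2] at h5
  exact ⟨h4.symm, h2.symm, h1, h3, h5⟩

/-- For fixed `x` and different `b, c, d` there are at most four `a`. -/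
lemma count_three (G : SimpleGraph (Fin n → Bool))
    (hfree : (SimpleGraph.cycleGraph 10).Free G) (x : Fin n → Bool) (b c d : Fin n)
    (hbc : b ≠ c) (hbd : b ≠ d) (hcd : c ≠ d) [DecidablePred fun a => Q3 G a b c d (fl b (fl a x))] :
    (Finset.univ.filter (fun a => Q3 G a b c d (fl b (fl a x)))).card ≤ 4 := by
  classical
  set T := Finset.univ.filter (fun a => Q3 G a b c d (fl b (fl a x))) with hT
  have h1 : T ⊆ {b, c, d} ∪ (T \ {b, c, d}) := by
    intro a ha
    by_cases h : a ∈ ({b, c, d} : Finset (Fin n))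
    · exact Finset.mem_union_left _ h
    · exact Finset.mem_union_right _ (Finset.mem_sdiff.2 ⟨ha, h⟩)
  have h2 : (T \ {b, c, d}).card ≤ 1 := by
    rw [Finset.card_le_one]
    intro a ha e he
    by_contra hae
    rw [Finset.mem_sdiff] at ha he
    obtain ⟨ha1, ha2⟩ := ha
    obtain ⟨he1, he2⟩ := he
    rw [hT, Finset.mem_filter] at ha1 he1
    simp only [Finset.mem_insert, Finset.mem_singleton, not_or] at ha2 he2
    obtain ⟨p1, p2, p3, p4, p5⟩ := Q3_path G a b c d x ha1.2
    obtain ⟨q1, q2, q3, q4, q5⟩ := Q3_path G e b c d x he1.2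
    exact no_two_three G hfree x a e b c d hae ha2.1 ha2.2.1 ha2.2.2 he2.1 he2.2.1 he2.2.2
      hbc hbd hcd p1 p2 p3 p4 p5 q1 q2 q3 q4 q5
  have h3 : ({b, c, d} : Finset (Fin n)).card ≤ 3 := Finset.card_le_three
  calc T.card ≤ ({b, c, d} ∪ (T \ {b, c, d})).card := Finset.card_le_card h1
    _ ≤ ({b, c, d} : Finset (Fin n)).card + (T \ {b, c, d}).card := Finset.card_union_le _ _
    _ ≤ 4 := by omega

/-- For fixed `x` and `c` there are at most `2n + 1` pairs `a, b` of different directions other
than `c`. -/
lemma count_pairs (G : SimpleGraph (Fin n → Bool))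
    (hfree : (SimpleGraph.cycleGraph 10).Free G) (x : Fin n → Bool) (c : Fin n)
    (T : Finset (Fin n × Fin n))
    (hT : ∀ p ∈ T, Q2 G p.1 p.2 c (fl p.2 (fl p.1 x)) ∧ p.1 ≠ p.2 ∧ p.1 ≠ c ∧ p.2 ≠ c) :
    T.card ≤ 2 * n + 1 := by
  classical
  rcases T.eq_empty_or_nonempty with h | ⟨⟨a, b⟩, hab⟩
  · rw [h]; simp
  have h1 : T ⊆ (({a} : Finset (Fin n)) ×ˢ Finset.univ) ∪
      (Finset.univ ×ˢ ({b} : Finset (Fin n))) ∪ {(b, a)} := by
    rintro ⟨e, h⟩ heh
    by_contra hnot
    simp only [Finset.mem_union, Finset.mem_product, Finset.mem_singleton, Finset.mem_univ,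
      and_true, true_and, Prod.mk.injEq, not_or] at hnot
    obtain ⟨⟨n1, n2⟩, n3⟩ := hnot
    obtain ⟨r1, r2, r3, r4⟩ := hT _ hab
    obtain ⟨t1, t2, t3, t4⟩ := hT _ heh
    obtain ⟨p1, p2, p3, p4, p5⟩ := Q2_path G a b c x r1
    obtain ⟨q1, q2, q3, q4, q5⟩ := Q2_path G e h c x t1
    exact no_two_pairs G hfree x c a b e h (fun hh => n1 hh.symm) (fun hh => n2 hh.symm)
      r2 t2 r3 r4 t3 t4 (fun hh => n3 ⟨hh.2, hh.1.symm⟩) p1 p2 p3 p4 p5 q1 q2 q3 q4 q5
  calc T.card ≤ _ := Finset.card_le_card h1
    _ ≤ ((({a} : Finset (Fin n)) ×ˢ (Finset.univ : Finset (Fin n))) ∪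
      ((Finset.univ : Finset (Fin n)) ×ˢ ({b} : Finset (Fin n)))).card +
        ({(b, a)} : Finset (Fin n × Fin n)).card := Finset.card_union_le _ _
    _ ≤ (({a} : Finset (Fin n)) ×ˢ (Finset.univ : Finset (Fin n))).card +
      ((Finset.univ : Finset (Fin n)) ×ˢ ({b} : Finset (Fin n))).card +
        ({(b, a)} : Finset (Fin n × Fin n)).card :=
        Nat.add_le_add_right (Finset.card_union_le _ _) _
    _ = 2 * n + 1 := by
        rw [Finset.card_product, Finset.card_product]
        simp
        omega

end Pool.Agent.Lib.MP_5e2afd_co.Up
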