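import Mathlib
import Pool.Agent.Lib.MP_5e2afd_co.UpA
import Pool.Agent.Lib.MP_5e2afd_co.UpE

set_option autoImplicit false

namespace Pool.Agent.Lib.MP_5e2afd_co.Up

open Finset

variable {n : ℕ}

lemma sum_fl (a : Fin n) (F : (Fin n → Bool) → ℝ) : ∑ x, F (fl a x) = ∑ x, F x := by
  let σ : (Fin n → Bool) ≃ (Fin n → Bool) := ⟨fl a, fl a, fl_fl a, fl_fl a⟩
  exact Equiv.sum_comp σ F

lemma sum_mem {A : Type*} [Fintype A] [DecidableEq A] (X : Finset A) (F : A → ℝ) :
    ∑ a ∈ X, F a = ∑ a, if a ∈ X then F a else 0 := by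
  rw [Finset.sum_ite_mem, Finset.univ_inter]

lemma shift3 (F : (Fin n → Bool) → Fin n → Fin n → Fin n → ℝ) :
    ∑ v, ∑ c, ∑ b, ∑ a, F v c b a = ∑ x, ∑ c, ∑ b, ∑ a, F (fl b (fl a x)) c b a := by
  have e : ∀ H : (Fin n → Bool) → Fin n → Fin n → Fin n → ℝ,
      ∑ v, ∑ c, ∑ b, ∑ a, H v c b a = ∑ c, ∑ b, ∑ a, ∑ v, H v c b a := by
    intro H
    rw [Finset.sum_comm]
    refine Finset.sum_congr rfl fun c _ => ?_
    rw [Finset.sum_comm]
    refine Finset.sum_congr rfl fun b _ => ?_
    rw [Finset.sum_comm]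
  rw [e, e (fun x c b a => F (fl b (fl a x)) c b a)]
  refine Finset.sum_congr rfl fun c _ => Finset.sum_congr rfl fun b _ =>
    Finset.sum_congr rfl fun a _ => ?_
  rw [sum_fl a (fun y => F (fl b y) c b a), sum_fl b (fun y => F y c b a)]

lemma shift4 (F : (Fin n → Bool) → Fin n → Fin n → Fin n → Fin n → ℝ) :
    ∑ v, ∑ c, ∑ a, ∑ b, ∑ d, F v c a b d
      = ∑ x, ∑ c, ∑ b, ∑ d, ∑ a, F (fl b (fl a x)) c a b d := by
  have e : ∀ H : (Fin n → Bool) → Fin n → Fin n → Fin n → Fin n → ℝ,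
      ∑ v, ∑ c, ∑ a, ∑ b, ∑ d, H v c a b d = ∑ c, ∑ a, ∑ b, ∑ d, ∑ v, H v c a b d := by
    intro H
    rw [Finset.sum_comm]
    refine Finset.sum_congr rfl fun c _ => ?_
    rw [Finset.sum_comm]
    refine Finset.sum_congr rfl fun a _ => ?_
    rw [Finset.sum_comm]
    refine Finset.sum_congr rfl fun b _ => ?_
    rw [Finset.sum_comm]
  have e2 : ∀ H : (Fin n → Bool) → Fin n → Fin n → Fin n → Fin n → ℝ,
      ∑ x, ∑ c, ∑ b, ∑ d, ∑ a, H x c a b d = ∑ x, ∑ c, ∑ a, ∑ b, ∑ d, H x c a b d := by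
    intro H
    refine Finset.sum_congr rfl fun x _ => Finset.sum_congr rfl fun c _ => ?_
    have : ∀ b, ∑ d, ∑ a, H x c a b d = ∑ a, ∑ d, H x c a b d := fun b => Finset.sum_comm
    simp_rw [this]
    rw [Finset.sum_comm]
  rw [e2 (fun x c a b d => F (fl b (fl a x)) c a b d), e,
    e (fun x c a b d => F (fl b (fl a x)) c a b d)]
  refine Finset.sum_congr rfl fun c _ => Finset.sum_congr rfl fun a _ =>
    Finset.sum_congr rfl fun b _ => Finset.sum_congr rfl fun d _ => ?_
  rw [sum_fl a (fun y => F (fl b y) c a b d), sum_fl b (fun y => F y c a b d)]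

/-- Count of the pattern `a b c a b`. -/
lemma sum_two (G : SimpleGraph (Fin n → Bool)) (hfree : (SimpleGraph.cycleGraph 10).Free G)
    (hn : 1 ≤ n) :
    (∑ v, ∑ c ∈ dirs G v, ∑ b ∈ dirs G v, ∑ a ∈ dirs G (fl c v),
      if a ∈ dirs G (fl b v) ∧ b ∈ dirs G (fl a (fl c v)) then (1 : ℝ) else 0)
      ≤ 6 * (n : ℝ) ^ 2 * 2 ^ n := by
  classical
  have e1 : (∑ v, ∑ c ∈ dirs G v, ∑ b ∈ dirs G v, ∑ a ∈ dirs G (fl c v),
      if a ∈ dirs G (fl b v) ∧ b ∈ dirs G (fl a (fl c v)) then (1 : ℝ) else 0)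
      = ∑ v, ∑ c, ∑ b, ∑ a, if Q2 G a b c v then (1 : ℝ) else 0 := by
    refine Finset.sum_congr rfl fun v _ => ?_
    rw [sum_mem]
    refine Finset.sum_congr rfl fun c _ => ?_
    by_cases hc : c ∈ dirs G v
    · rw [if_pos hc, sum_mem]
      refine Finset.sum_congr rfl fun b _ => ?_
      by_cases hb : b ∈ dirs G v
      · rw [if_pos hb, sum_mem]
        refine Finset.sum_congr rfl fun a _ => ?_
        by_cases ha : a ∈ dirs G (fl c v)
        · rw [if_pos ha]
          simp [Q2, hc, hb, ha]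
        · rw [if_neg ha]
          simp [Q2, ha]
      · rw [if_neg hb]
        simp [Q2, hb]
    · rw [if_neg hc]
      simp [Q2, hc]
  rw [e1, shift3 (fun v c b a => if Q2 G a b c v then (1 : ℝ) else 0)]
  have key : ∀ (x : Fin n → Bool) (c : Fin n),
      (∑ b, ∑ a, if Q2 G a b c (fl b (fl a x)) then (1 : ℝ) else 0) ≤ 5 * n + 1 := by
    intro x c
    set T : Finset (Fin n × Fin n) := Finset.univ.filter (fun p =>
      Q2 G p.1 p.2 c (fl p.2 (fl p.1 x)) ∧ p.1 ≠ p.2 ∧ p.1 ≠ c ∧ p.2 ≠ c) with hT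
    have hcard : T.card ≤ 2 * n + 1 :=
      count_pairs G hfree x c T (fun p hp => (Finset.mem_filter.1 hp).2)
    have hcard' : (T.card : ℝ) ≤ 2 * n + 1 := by exact_mod_cast hcard
    have b1 : ∀ b a : Fin n, (if Q2 G a b c (fl b (fl a x)) then (1 : ℝ) else 0)
        ≤ (if (a, b) ∈ T then (1 : ℝ) else 0) + (if a = b then (1 : ℝ) else 0)
          + (if a = c then (1 : ℝ) else 0) + (if b = c then (1 : ℝ) else 0) := by
      intro b a
      by_cases hQ : Q2 G a b c (fl b (fl a x))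
      · rw [if_pos hQ]
        by_cases h1 : a = b
        · rw [if_pos h1]
          have : (0 : ℝ) ≤ if (a, b) ∈ T then (1 : ℝ) else 0 := by split_ifs <;> norm_num
          have : (0 : ℝ) ≤ if a = c then (1 : ℝ) else 0 := by split_ifs <;> norm_num
          have : (0 : ℝ) ≤ if b = c then (1 : ℝ) else 0 := by split_ifs <;> norm_num
          linarith
        · by_cases h2 : a = c
          · rw [if_neg h1, if_pos h2]
            have : (0 : ℝ) ≤ if (a, b) ∈ T then (1 : ℝ) else 0 := by split_ifs <;> norm_num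
            have : (0 : ℝ) ≤ if b = c then (1 : ℝ) else 0 := by split_ifs <;> norm_num
            linarith
          · by_cases h3 : b = c
            · rw [if_neg h1, if_neg h2, if_pos h3]
              have : (0 : ℝ) ≤ if (a, b) ∈ T then (1 : ℝ) else 0 := by
                split_ifs <;> norm_num
              linarith
            · have h4 : (a, b) ∈ T := by
                rw [hT, Finset.mem_filter]
                exact ⟨Finset.mem_univ _, hQ, h1, h2, h3⟩
              rw [if_neg h1, if_neg h2, if_neg h3, if_pos h4]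
              norm_num
      · rw [if_neg hQ]
        have : (0 : ℝ) ≤ if (a, b) ∈ T then (1 : ℝ) else 0 := by split_ifs <;> norm_num
        have : (0 : ℝ) ≤ if a = b then (1 : ℝ) else 0 := by split_ifs <;> norm_num
        have : (0 : ℝ) ≤ if a = c then (1 : ℝ) else 0 := by split_ifs <;> norm_num
        have : (0 : ℝ) ≤ if b = c then (1 : ℝ) else 0 := by split_ifs <;> norm_num
        linarith
    have b2 : (∑ b, ∑ a, if Q2 G a b c (fl b (fl a x)) then (1 : ℝ) else 0)
        ≤ ∑ b, ∑ a, ((if (a, b) ∈ T then (1 : ℝ) else 0) + (if a = b then (1 : ℝ) else 0)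
          + (if a = c then (1 : ℝ) else 0) + (if b = c then (1 : ℝ) else 0)) :=
      Finset.sum_le_sum fun b _ => Finset.sum_le_sum fun a _ => b1 b a
    have b3 : ∑ b : Fin n, ∑ a : Fin n, (if (a, b) ∈ T then (1 : ℝ) else 0) = T.card := by
      rw [Finset.sum_comm, ← Finset.sum_product' Finset.univ Finset.univ
        (fun a b => if (a, b) ∈ T then (1 : ℝ) else 0)]
      simp
    have b4 : ∑ b : Fin n, ∑ a : Fin n, ((if (a, b) ∈ T then (1 : ℝ) else 0)
          + (if a = b then (1 : ℝ) else 0)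
          + (if a = c then (1 : ℝ) else 0) + (if b = c then (1 : ℝ) else 0))
          = T.card + n + n + n := by
      simp only [Finset.sum_add_distrib]
      rw [b3]
      simp
    rw [b4] at b2
    linarith
  have h2 : ∑ x : Fin n → Bool, ∑ c, ∑ b, ∑ a,
      (if Q2 G a b c (fl b (fl a x)) then (1 : ℝ) else 0)
      ≤ ∑ _x : Fin n → Bool, ∑ _c : Fin n, (5 * (n : ℝ) + 1) :=
    Finset.sum_le_sum fun x _ => Finset.sum_le_sum fun c _ => key x c
  have h3 : ∑ _x : Fin n → Bool, ∑ _c : Fin n, (5 * (n : ℝ) + 1)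
      = 2 ^ n * (n * (5 * n + 1)) := by
    simp
    ring
  have h4 : (1 : ℝ) ≤ n := by exact_mod_cast hn
  have h5 : (2 : ℝ) ^ n * (n * (5 * n + 1)) ≤ 2 ^ n * (6 * (n : ℝ) ^ 2) := by
    apply mul_le_mul_of_nonneg_left _ (by positivity)
    nlinarith
  calc _ ≤ _ := h2
    _ = _ := h3
    _ ≤ _ := h5
    _ = _ := by ring

/-- Count of the pattern `a b c d a`. -/
lemma sum_three (G : SimpleGraph (Fin n → Bool)) (hfree : (SimpleGraph.cycleGraph 10).Free G) :
    ∑ v, ∑ c ∈ dirs G v, ∑ a, S fl (dirs G) v a * S fl (dirs G) (fl c v) a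
      ≤ 7 * (n : ℝ) ^ 3 * 2 ^ n := by
  classical
  have e1 : ∑ v, ∑ c ∈ dirs G v, ∑ a, S fl (dirs G) v a * S fl (dirs G) (fl c v) a
      = ∑ v, ∑ c, ∑ a, ∑ b, ∑ d, if Q3 G a b c d v then (1 : ℝ) else 0 := by
    refine Finset.sum_congr rfl fun v _ => ?_
    rw [sum_mem]
    refine Finset.sum_congr rfl fun c _ => ?_
    by_cases hc : c ∈ dirs G v
    · rw [if_pos hc]
      refine Finset.sum_congr rfl fun a _ => ?_
      unfold S
      rw [sum_mem (dirs G v), sum_mem (dirs G (fl c v)), Finset.sum_mul_sum]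
      refine Finset.sum_congr rfl fun b _ => Finset.sum_congr rfl fun d _ => ?_
      by_cases h1 : b ∈ dirs G v <;> by_cases h2 : a ∈ dirs G (fl b v) <;>
        by_cases h3 : d ∈ dirs G (fl c v) <;> by_cases h4 : a ∈ dirs G (fl d (fl c v)) <;>
        simp [Q3, hc, h1, h2, h3, h4]
    · rw [if_neg hc]
      simp [Q3, hc]
  rw [e1, shift4 (fun v c a b d => if Q3 G a b c d v then (1 : ℝ) else 0)]
  have key : ∀ (x : Fin n → Bool) (c b d : Fin n),
      (∑ a, if Q3 G a b c d (fl b (fl a x)) then (1 : ℝ) else 0)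
      ≤ 4 + n * (if b = c then (1 : ℝ) else 0) + n * (if b = d then (1 : ℝ) else 0)
        + n * (if c = d then (1 : ℝ) else 0) := by
    intro x c b d
    have hn0 : (0 : ℝ) ≤ n := Nat.cast_nonneg n
    have hle : (∑ a, if Q3 G a b c d (fl b (fl a x)) then (1 : ℝ) else 0) ≤ n := by
      calc (∑ a, if Q3 G a b c d (fl b (fl a x)) then (1 : ℝ) else 0)
          ≤ ∑ _a : Fin n, (1 : ℝ) := by
            apply Finset.sum_le_sum
            intro a _
            split_ifs <;> norm_num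
        _ = n := by simp
    have q1 : (0 : ℝ) ≤ n * (if b = c then (1 : ℝ) else 0) := by split_ifs <;> simp
    have q2 : (0 : ℝ) ≤ n * (if b = d then (1 : ℝ) else 0) := by split_ifs <;> simp
    have q3 : (0 : ℝ) ≤ n * (if c = d then (1 : ℝ) else 0) := by split_ifs <;> simp
    by_cases h1 : b = c
    · have : (n : ℝ) * (if b = c then (1 : ℝ) else 0) = n := by rw [if_pos h1, mul_one]
      linarith
    · by_cases h2 : b = d
      · have : (n : ℝ) * (if b = d then (1 : ℝ) else 0) = n := by rw [if_pos h2, mul_one]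
        linarith
      · by_cases h3 : c = d
        · have : (n : ℝ) * (if c = d then (1 : ℝ) else 0) = n := by rw [if_pos h3, mul_one]
          linarith
        · have h4 := count_three G hfree x b c d h1 h2 h3
          have h5 : (∑ a, if Q3 G a b c d (fl b (fl a x)) then (1 : ℝ) else 0)
              = ((Finset.univ.filter
                (fun a => Q3 G a b c d (fl b (fl a x)))).card : ℝ) := by
            rw [Finset.sum_boole]
          rw [h5]
          have h6 : ((Finset.univ.filter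
                (fun a => Q3 G a b c d (fl b (fl a x)))).card : ℝ) ≤ 4 := by
            exact_mod_cast h4
          linarith
  have h2 : ∑ x : Fin n → Bool, ∑ c, ∑ b, ∑ d, ∑ a,
      (if Q3 G a b c d (fl b (fl a x)) then (1 : ℝ) else 0)
      ≤ ∑ _x : Fin n → Bool, ∑ c : Fin n, ∑ b : Fin n, ∑ d : Fin n,
        (4 + n * (if b = c then (1 : ℝ) else 0) + n * (if b = d then (1 : ℝ) else 0)
        + n * (if c = d then (1 : ℝ) else 0)) :=
    Finset.sum_le_sum fun x _ => Finset.sum_le_sum fun c _ => Finset.sum_le_sum fun b _ =>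
      Finset.sum_le_sum fun d _ => key x c b d
  have h3 : ∑ _x : Fin n → Bool, ∑ c : Fin n, ∑ b : Fin n, ∑ d : Fin n,
        (4 + n * (if b = c then (1 : ℝ) else 0) + n * (if b = d then (1 : ℝ) else 0)
        + n * (if c = d then (1 : ℝ) else 0)) = 7 * (n : ℝ) ^ 3 * 2 ^ n := by
    simp [Finset.sum_add_distrib]
    ring
  linarith

end Pool.Agent.Lib.MP_5e2afd_co.Up
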