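import Mathlib
import Pool.Agent.Lib.MP_5e2afd_co.UpE

set_option autoImplicit false

namespace Pool.Agent.Lib.MP_5e2afd_co.Up

open Finset

variable {n : ℕ}

lemma fl_inj (v : Fin n → Bool) : Function.Injective (fun a => fl a v) := by
  intro a b hab
  by_contra hne
  have h := congrFun hab a
  simp [fl_apply, hne] at h

lemma eq_fl_of_adj {v w : Fin n → Bool} (h : (hypercube n).Adj v w) : ∃ a, w = fl a v := by
  obtain ⟨i, hi, huniq⟩ := h
  refine ⟨i, ?_⟩
  funext j
  rw [fl_apply]
  by_cases hj : j = i
  · subst hj
    rw [if_pos rfl]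
    have hi' : v j ≠ w j := hi
    cases h1 : v j <;> cases h2 : w j <;> simp_all
  · rw [if_neg hj]
    by_contra hne
    exact hj (huniq j (fun hh => hne hh.symm))

lemma adj_fl (a : Fin n) (v : Fin n → Bool) : (hypercube n).Adj v (fl a v) := by
  refine ⟨a, ?_, ?_⟩
  · simp [fl_apply]
  · intro j hj
    by_contra hne
    apply hj
    simp [fl_apply, hne]

lemma degree_eq (G : SimpleGraph (Fin n → Bool)) (hG : G ≤ hypercube n) (v : Fin n → Bool)
    [Fintype (G.neighborSet v)] : G.degree v = (dirs G v).card := by
  classical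
  rw [← SimpleGraph.card_neighborFinset_eq_degree]
  symm
  have h : G.neighborFinset v = (dirs G v).image (fun a => fl a v) := by
    ext w
    rw [SimpleGraph.mem_neighborFinset, Finset.mem_image]
    constructor
    · intro hw
      obtain ⟨a, ha⟩ := eq_fl_of_adj (hG hw)
      exact ⟨a, (mem_dirs G v a).2 (ha ▸ hw), ha.symm⟩
    · rintro ⟨a, ha, rfl⟩
      exact (mem_dirs G v a).1 ha
  rw [h, Finset.card_image_of_injective _ (fl_inj v)]

lemma handshake (G : SimpleGraph (Fin n → Bool)) (hG : G ≤ hypercube n) :
    ∑ v, (dirs G v).card = 2 * G.edgeSet.ncard := by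
  classical
  have h := G.sum_degrees_eq_twice_card_edges
  have h2 : G.edgeFinset.card = G.edgeSet.ncard := by
    rw [Set.ncard_eq_toFinset_card']
    rfl
  rw [← h2, ← h]
  exact Finset.sum_congr rfl fun v _ => (degree_eq G hG v).symm

lemma hypercube_card (n : ℕ) : 2 * (hypercube n).edgeSet.ncard = n * 2 ^ n := by
  rw [← handshake (hypercube n) le_rfl]
  have h : ∀ v, (dirs (hypercube n) v).card = n := by
    intro v
    have : dirs (hypercube n) v = Finset.univ := by
      ext a
      rw [mem_dirs]
      simp [adj_fl]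
    rw [this]
    simp
  simp [h, mul_comm]

/-- A subgraph in which all degrees are `0` or at least `m`. -/
lemma clean (G : SimpleGraph (Fin n → Bool)) (hG : G ≤ hypercube n) (m : ℕ) :
    ∃ H : SimpleGraph (Fin n → Bool), H ≤ G ∧
      (∀ v, (dirs H v).Nonempty → m ≤ (dirs H v).card) ∧
      G.edgeSet.ncard ≤ H.edgeSet.ncard + m * 2 ^ n := by
  classical
  let iso : SimpleGraph (Fin n → Bool) → Finset (Fin n → Bool) := fun H =>
    Finset.univ.filter (fun v => dirs H v = ∅)
  let f : SimpleGraph (Fin n → Bool) → ℕ := fun H => H.edgeSet.ncard + m * (iso H).card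
  obtain ⟨H, hH, hmax⟩ := Set.exists_max_image {H : SimpleGraph (Fin n → Bool) | H ≤ G} f
    (Set.toFinite _) ⟨G, show G ≤ G from le_rfl⟩
  have hHG : H ≤ G := hH
  refine ⟨H, hHG, ?_, ?_⟩
  · intro v hv
    by_contra hlt
    push Not at hlt
    let K : SimpleGraph (Fin n → Bool) :=
      { Adj := fun x y => H.Adj x y ∧ x ≠ v ∧ y ≠ v
        symm := ⟨fun x y h => ⟨h.1.symm, h.2.2, h.2.1⟩⟩
        loopless := ⟨fun x h => H.loopless.irrefl x h.1⟩ }
    have hK : ∀ x y, K.Adj x y ↔ H.Adj x y ∧ x ≠ v ∧ y ≠ v := fun _ _ => Iff.rfl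
    have hKH : K ≤ H := fun x y h => ((hK x y).1 h).1
    have hle := hmax K (show K ≤ G from hKH.trans hHG)
    have h1 : H.edgeSet ⊆ K.edgeSet ∪ H.incidenceSet v := by
      intro e he
      induction e using Sym2.ind with
      | _ x y =>
        rw [SimpleGraph.mem_edgeSet] at he
        by_cases hx : x = v
        · right
          exact ⟨he, by rw [← hx]; exact Sym2.mem_mk_left x y⟩
        · by_cases hy : y = v
          · right
            exact ⟨he, by rw [← hy]; exact Sym2.mem_mk_right x y⟩
          · left
            rw [SimpleGraph.mem_edgeSet]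
            exact (hK x y).2 ⟨he, hx, hy⟩
    have h2 : (H.incidenceSet v).ncard = (dirs H v).card := by
      rw [← degree_eq H (hHG.trans hG) v, ← SimpleGraph.card_incidenceSet_eq_degree,
        Set.ncard_eq_toFinset_card', Set.toFinset_card]
    have h3 : H.edgeSet.ncard ≤ K.edgeSet.ncard + (dirs H v).card := by
      rw [← h2]
      exact (Set.ncard_le_ncard h1 (Set.toFinite _)).trans (Set.ncard_union_le _ _)
    have h4 : insert v (iso H) ⊆ iso K := by
      intro x hx
      rw [Finset.mem_insert] at hx
      show x ∈ Finset.univ.filter (fun v => dirs K v = ∅)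
      rw [Finset.mem_filter]
      refine ⟨Finset.mem_univ _, ?_⟩
      rw [Finset.eq_empty_iff_forall_notMem]
      intro a ha
      rw [mem_dirs, hK] at ha
      rcases hx with hx | hx
      · exact ha.2.1 hx
      · have h5 : dirs H x = ∅ := (Finset.mem_filter.1 hx).2
        have h6 : a ∈ dirs H x := (mem_dirs H x a).2 ha.1
        rw [h5] at h6
        exact absurd h6 (Finset.notMem_empty a)
    have h5 : v ∉ iso H := by
      intro hmem
      have h6 : dirs H v = ∅ := (Finset.mem_filter.1 hmem).2
      rw [h6] at hv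
      exact Finset.not_nonempty_empty hv
    have h6 : (iso H).card + 1 ≤ (iso K).card := by
      rw [← Finset.card_insert_of_notMem h5]
      exact Finset.card_le_card h4
    have h7 : m * (iso H).card + m ≤ m * (iso K).card := by
      have := Nat.mul_le_mul_left m h6
      rw [Nat.mul_add, Nat.mul_one] at this
      exact this
    have hle' : K.edgeSet.ncard + m * (iso K).card ≤ H.edgeSet.ncard + m * (iso H).card := hle
    omega
  · have hle := hmax G (show G ≤ G from le_rfl)
    have hle' : G.edgeSet.ncard + m * (iso G).card ≤ H.edgeSet.ncard + m * (iso H).card := hle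
    have h1 : (iso H).card ≤ 2 ^ n := by
      calc (iso H).card ≤ (Finset.univ : Finset (Fin n → Bool)).card :=
            Finset.card_le_card (Finset.filter_subset _ _)
        _ = 2 ^ n := by simp
    have h2 : m * (iso H).card ≤ m * 2 ^ n := Nat.mul_le_mul_left m h1
    omega

end Pool.Agent.Lib.MP_5e2afd_co.Up
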