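import Mathlib
import Pool.Agent.Lib.MP_5e2afd_co.UpC
import Pool.Agent.Lib.MP_5e2afd_co.UpF
import Pool.Agent.Lib.MP_5e2afd_co.UpG

set_option autoImplicit false

namespace Pool.Agent.Lib.MP_5e2afd_co.Up

open Finset

/-- The arithmetic at the end: `N` is the degree sum, `q = 2 ^ n`. -/
lemma numeric {n q N δ t : ℝ} (hn : 0 < n) (hq : 0 < q) (hδ : 0 < δ) (ht : 0 < t)
    (hN : n * q / 4 ≤ N)
    (h : N * Real.log (N / q) ≤ N *
        (Real.log ((1 + (δ * n)⁻¹ ^ 2 * (6 * n ^ 2 * q) / N) / 2)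
          + Real.log (n / 2) + (t / n) * n / 2)
        + (t / n)⁻¹ * ((δ * n)⁻¹ ^ 4 * (7 * n ^ 3 * q)) / 2) :
    Real.log (4 * (N / (n * q))) ≤ t / 2 + (24 / δ ^ 2 + 14 / (t * δ ^ 4)) / n := by
  have hN0 : 0 < N := by
    have : 0 < n * q / 4 := by positivity
    linarith
  set z : ℝ := (δ * n)⁻¹ ^ 2 * (6 * n ^ 2 * q) / N with hz
  have hz0 : 0 < z := by positivity
  have hzle : z ≤ 24 / δ ^ 2 / n := by
    have e : z = 6 * q / (δ ^ 2 * N) := by rw [hz]; field_simp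
    rw [e, div_div, div_le_div_iff₀ (by positivity) (by positivity)]
    have h1 : 6 * q * (δ ^ 2 * n) = 24 * δ ^ 2 * (n * q / 4) := by ring
    have h2 : 24 * (δ ^ 2 * N) = 24 * δ ^ 2 * N := by ring
    rw [h1, h2]
    exact mul_le_mul_of_nonneg_left hN (by positivity)
  have hlog1 : Real.log ((1 + z) / 2) ≤ z - Real.log 2 := by
    rw [Real.log_div (by positivity) (by norm_num)]
    have := Real.log_le_sub_one_of_pos (show 0 < 1 + z by positivity)
    linarith
  set w : ℝ := (t / n)⁻¹ * ((δ * n)⁻¹ ^ 4 * (7 * n ^ 3 * q)) / 2 with hw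
  have hwle : w ≤ N * (14 / (t * δ ^ 4) / n) := by
    have e : w = (14 / (t * δ ^ 4) / n) * (n * q / 4) := by rw [hw]; field_simp; ring
    rw [e, mul_comm N]
    exact mul_le_mul_of_nonneg_left hN (by positivity)
  have hmain : N * Real.log (N / q) ≤ N * ((z - Real.log 2) + Real.log (n / 2) + t / 2
      + 14 / (t * δ ^ 4) / n) := by
    have e : (t / n) * n / 2 = t / 2 := by field_simp
    rw [e] at h
    have : N * (Real.log ((1 + z) / 2) + Real.log (n / 2) + t / 2)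
        ≤ N * ((z - Real.log 2) + Real.log (n / 2) + t / 2) :=
      mul_le_mul_of_nonneg_left (by linarith) hN0.le
    have e2 : N * ((z - Real.log 2) + Real.log (n / 2) + t / 2 + 14 / (t * δ ^ 4) / n)
        = N * ((z - Real.log 2) + Real.log (n / 2) + t / 2)
          + N * (14 / (t * δ ^ 4) / n) := by ring
    linarith
  have hdiv := le_of_mul_le_mul_left hmain hN0
  have l1 : Real.log (n / 2) = Real.log n - Real.log 2 :=
    Real.log_div hn.ne' (by norm_num)
  have l2 : Real.log (N / q) = Real.log N - Real.log q := Real.log_div hN0.ne' hq.ne'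
  have l3 : Real.log (4 * (N / (n * q))) = 2 * Real.log 2 + (Real.log N -
      (Real.log n + Real.log q)) := by
    rw [Real.log_mul (by norm_num) (by positivity), Real.log_div hN0.ne' (by positivity),
      Real.log_mul hn.ne' hq.ne']
    have : Real.log 4 = 2 * Real.log 2 := by
      rw [show (4 : ℝ) = 2 ^ 2 by norm_num, Real.log_pow]
      norm_num
    rw [this]
  rw [l3]
  have e3 : (24 / δ ^ 2 + 14 / (t * δ ^ 4)) / n = 24 / δ ^ 2 / n + 14 / (t * δ ^ 4) / n := by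
    ring
  rw [e3]
  linarith

/-- The bound for a graph whose degrees are `0` or at least `δ n`. -/
lemma dense_bound {n : ℕ} (hn : 1 ≤ n) (H : SimpleGraph (Fin n → Bool))
    (hfree : (SimpleGraph.cycleGraph 10).Free H) {δ t : ℝ} (hδ : 0 < δ) (ht : 0 < t)
    (hdeg : ∀ v, (dirs H v).Nonempty → δ * n ≤ (dirs H v).card)
    (hN : (n : ℝ) * 2 ^ n / 4 ≤ ∑ v, ((dirs H v).card : ℝ)) :
    Real.log (4 * ((∑ v, ((dirs H v).card : ℝ)) / (n * 2 ^ n)))
      ≤ t / 2 + (24 / δ ^ 2 + 14 / (t * δ ^ 4)) / n := by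
  have hn0 : (0 : ℝ) < n := by exact_mod_cast hn
  have hN0 : 0 < ∑ v, ((dirs H v).card : ℝ) := by
    have : (0 : ℝ) < (n : ℝ) * 2 ^ n / 4 := by positivity
    linarith
  have h := entropy_bound fl (dirs H) fl_fl (fun a v => dirs_symm H a v) (δ * n)
    (6 * (n : ℝ) ^ 2 * 2 ^ n) (7 * (n : ℝ) ^ 3 * 2 ^ n) (t / n) (by positivity) (by positivity)
    (by positivity) hdeg (sum_two H hfree hn) (sum_three H hfree) hN0
  have e1 : (Fintype.card (Fin n → Bool) : ℝ) = 2 ^ n := by simp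
  have e2 : (Fintype.card (Fin n) : ℝ) = n := by simp
  rw [e1, e2] at h
  exact numeric hn0 (by positivity) hδ ht hN h

/-- The upper bound. -/
theorem upper (ε : ℝ) (hε : 0 < ε) : ∃ N : ℕ, ∀ n ≥ N, ∀ G : SimpleGraph (Fin n → Bool),
    G ≤ hypercube n → (SimpleGraph.cycleGraph 10).Free G →
      (G.edgeSet.ncard : ℝ) ≤ (1 / 4 + ε) * (hypercube n).edgeSet.ncard := by
  set δ : ℝ := ε / 8 with hδdef
  have hδ : 0 < δ := by positivity
  set t : ℝ := Real.log (1 + 2 * ε) with htdef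
  have ht : 0 < t := Real.log_pos (by linarith)
  set C : ℝ := 24 / δ ^ 2 + 14 / (t * δ ^ 4) with hC
  have hC0 : 0 < C := by positivity
  obtain ⟨N, hN⟩ := exists_nat_gt (max (2 * C / t) (8 / ε))
  refine ⟨N, fun n hn G hG hfree => ?_⟩
  have hnN : (N : ℝ) ≤ n := by exact_mod_cast hn
  have hn1 : 2 * C / t < n := (le_max_left _ _).trans_lt (hN.trans_le hnN)
  have hn2 : 8 / ε < n := (le_max_right _ _).trans_lt (hN.trans_le hnN)
  have hnpos : (0 : ℝ) < n := lt_trans (by positivity) hn2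
  have hn3 : 1 ≤ n := by exact_mod_cast hnpos
  by_contra hlt
  push Not at hlt
  have hcube : 2 * ((hypercube n).edgeSet.ncard : ℝ) = n * 2 ^ n := by
    exact_mod_cast hypercube_card n
  set m : ℕ := ⌈δ * n⌉₊ with hm
  have hm1 : δ * n ≤ m := Nat.le_ceil _
  have hm2 : (m : ℝ) < δ * n + 1 := Nat.ceil_lt_add_one (by positivity)
  obtain ⟨H, hHG, hdeg, hcount⟩ := clean G hG m
  have hHfree : (SimpleGraph.cycleGraph 10).Free H := by
    intro hcon
    exact hfree (hcon.trans (SimpleGraph.IsContained.of_le hHG))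
  have hdeg' : ∀ v, (dirs H v).Nonempty → δ * n ≤ (dirs H v).card := by
    intro v hv
    have : (m : ℝ) ≤ (dirs H v).card := by exact_mod_cast hdeg v hv
    linarith
  have hsum : ∑ v, ((dirs H v).card : ℝ) = 2 * (H.edgeSet.ncard : ℝ) := by
    have := handshake H (hHG.trans hG)
    exact_mod_cast this
  have hcount' : (G.edgeSet.ncard : ℝ) ≤ H.edgeSet.ncard + m * 2 ^ n := by
    exact_mod_cast hcount
  have hq : (0 : ℝ) < 2 ^ n := by positivity
  have hbig : (1 / 4 + ε / 2) * (n * 2 ^ n) ≤ ∑ v, ((dirs H v).card : ℝ) := by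
    rw [hsum]
    have h1 : (1 / 4 + ε) * (n * 2 ^ n) < 2 * (G.edgeSet.ncard : ℝ) := by
      rw [← hcube]; linarith
    have h2 : (m : ℝ) * 2 ^ n ≤ (δ * n + 1) * 2 ^ n :=
      mul_le_mul_of_nonneg_right hm2.le hq.le
    have h3 : 8 < n * ε := by
      rw [div_lt_iff₀ hε] at hn2
      exact hn2
    have h4 : (8 : ℝ) * 2 ^ n ≤ n * ε * 2 ^ n := mul_le_mul_of_nonneg_right h3.le hq.le
    have h5 : 2 * ((δ * n + 1) * 2 ^ n) = ε / 4 * (n * 2 ^ n) + 2 * 2 ^ n := by
      rw [hδdef]; ring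
    nlinarith
  have hN4 : (n : ℝ) * 2 ^ n / 4 ≤ ∑ v, ((dirs H v).card : ℝ) := by
    have : (n : ℝ) * 2 ^ n / 4 ≤ (1 / 4 + ε / 2) * (n * 2 ^ n) := by
      have : 0 ≤ ε / 2 * ((n : ℝ) * 2 ^ n) := by positivity
      linarith
    linarith
  have hfin := dense_bound hn3 H hHfree hδ ht hdeg' hN4
  have hlow : t ≤ Real.log (4 * ((∑ v, ((dirs H v).card : ℝ)) / (n * 2 ^ n))) := by
    rw [htdef]
    apply Real.log_le_log (by linarith)
    have : (1 / 4 + ε / 2) ≤ (∑ v, ((dirs H v).card : ℝ)) / (n * 2 ^ n) := by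
      rw [le_div_iff₀ (by positivity)]
      exact hbig
    linarith
  have hlast : C / n < t / 2 := by
    rw [div_lt_iff₀ hnpos]
    rw [div_lt_iff₀ ht] at hn1
    linarith
  linarith

end Pool.Agent.Lib.MP_5e2afd_co.Up
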